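import Pool.Agent.H19.BFL.Stmts4

/-!
# Row NCO: the spread of the fans at the points of resolution `r`
-/

set_option autoImplicit false

namespace Pool.BFL

open Finset Real
open Pool.Agent.H49.Ent Pool.Agent.H32.Dense Pool.STK Pool.KS3 Pool.KA Pool.KSAT Pool.K2S Pool.PB

namespace Nco

/-- The affine plane of codimension two given by two graphs. -/
lemma graph_plane {m : ℕ} (i₁ k : Fin m) (hk : k ≠ i₁) (a a' : ℝ) (b b' : Fin m → ℝ) :
    ∃ s : (Fin m → ℝ) × (Fin (m - 2) → Fin m → ℝ), ∀ D : Fin m → ℝ, ∃ c : Fin (m - 2) → ℝ,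
      (D k - s.1 k - ∑ l, c l * s.2 l k =
        D k - a - ∑ i ∈ (univ.erase i₁).erase k, b i * D i) ∧
      (D i₁ - s.1 i₁ - ∑ l, c l * s.2 l i₁ =
        D i₁ - a' - ∑ i ∈ (univ.erase i₁).erase k, b' i * D i) ∧
      ∀ i, i ≠ k → i ≠ i₁ → D i - s.1 i - ∑ l, c l * s.2 l i = 0 := by
  have hR : ((univ.erase i₁).erase k).card = m - 2 := by
    rw [Finset.card_erase_of_mem (by simp [hk]), Finset.card_erase_of_mem (Finset.mem_univ _),
      Finset.card_univ, Fintype.card_fin]
    omega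
  set σ : Fin (m - 2) ≃ ((univ.erase i₁).erase k : Finset (Fin m)) :=
    (Finset.equivFinOfCardEq hR).symm with hσ
  have hsum : ∀ f : Fin m → ℝ, ∑ l, f (σ l) = ∑ i ∈ (univ.erase i₁).erase k, f i := by
    intro f
    rw [Equiv.sum_comp σ (fun i : ((univ.erase i₁).erase k : Finset (Fin m)) => f i)]
    exact Finset.sum_coe_sort _ f
  refine ⟨(fun i => if i = k then a else if i = i₁ then a' else 0,
    fun l i => if i = k then b (σ l) else if i = i₁ then b' (σ l) else
      if i = (σ l : Fin m) then 1 else 0), fun D => ⟨fun l => D (σ l), ?_, ?_, ?_⟩⟩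
  · simp only [if_true]
    rw [← hsum fun i => b i * D i]
    congr 1
    exact Finset.sum_congr rfl fun l _ => mul_comm _ _
  · simp only [if_neg hk.symm, if_true]
    rw [← hsum fun i => b' i * D i]
    congr 1
    exact Finset.sum_congr rfl fun l _ => mul_comm _ _
  · intro i h1 h2
    simp only [if_neg h1, if_neg h2]
    have h3 : ∑ l, D (σ l) * (if i = (σ l : Fin m) then (1 : ℝ) else 0) = D i := by
      rw [hsum fun i' => D i' * (if i = i' then (1 : ℝ) else 0)]
      rw [Finset.sum_eq_single i]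
      · simp
      · intro j _ hj
        rw [if_neg (Ne.symm hj), mul_zero]
      · intro h
        exact absurd (by simp [h1, h2]) h
    rw [h3]
    ring

/-- The sum over all coordinates. -/
lemma sum_split {m : ℕ} (i₁ k : Fin m) (hk : k ≠ i₁) (f : Fin m → ℝ) :
    ∑ i, f i = f i₁ + f k + ∑ i ∈ (univ.erase i₁).erase k, f i := by
  rw [← Finset.add_sum_erase univ f (Finset.mem_univ i₁),
    ← Finset.add_sum_erase (univ.erase i₁) f (by simp [hk] : k ∈ univ.erase i₁)]
  ring

/-- A slab in the chart is near an affine plane of codimension two. -/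
lemma slab_plane {m : ℕ} (hm : 2 ≤ m) (i₁ : Fin m) (u s : Fin m → ℝ) (n : ℝ) :
    ∃ S : (Fin m → ℝ) × (Fin (m - 2) → Fin m → ℝ), ∀ (D : Fin m → ℝ) (ε δ : ℝ),
      (∃ i, 1 ≤ |u i|) → (∀ i, |D i| ≤ 1) → ε ≤ 1 / 2 → 0 ≤ δ →
      |∑ i, u i * Function.update D i₁ 1 i| ≤ ε → s i₁ = 0 → (∀ j, |s j| ≤ 1) →
      |D i₁ - n - ∑ j, s j * D j| ≤ δ →
      ∃ c : Fin (m - 2) → ℝ, ∀ i, |D i - S.1 i - ∑ l, c l * S.2 l i| ≤ δ + 2 * m * ε := by
  classical
  have hne : (univ.erase i₁).Nonempty := by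
    rw [← Finset.card_pos, Finset.card_erase_of_mem (Finset.mem_univ _), Finset.card_univ,
      Fintype.card_fin]
    omega
  obtain ⟨k, hkm, hkmax⟩ := Finset.exists_max_image (univ.erase i₁) (fun i => |u i|) hne
  have hk : k ≠ i₁ := (Finset.mem_erase.mp hkm).1
  obtain ⟨S, hS⟩ := graph_plane i₁ k hk (-(u i₁ / u k)) (n + s k * (-(u i₁ / u k)))
    (fun i => -(u i / u k)) (fun i => s i + s k * (-(u i / u k)))
  refine ⟨S, fun D ε δ hu hD hε hδ h1 hs1 hs h2 => ?_⟩
  obtain ⟨c, e1, e2, e3⟩ := hS D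
  refine ⟨c, ?_⟩
  have hmr : (2 : ℝ) ≤ m := by exact_mod_cast hm
  have hε0 : 0 ≤ ε := (abs_nonneg _).trans h1
  have hsp := sum_split i₁ k hk (fun i => u i * Function.update D i₁ 1 i)
  have hupk : Function.update D i₁ 1 k = D k := by
    rw [Function.update_of_ne hk]
  have hup1 : Function.update D i₁ 1 i₁ = 1 := Function.update_self _ _ _
  have hupR : ∑ i ∈ (univ.erase i₁).erase k, u i * Function.update D i₁ 1 i =
      ∑ i ∈ (univ.erase i₁).erase k, u i * D i := by
    refine Finset.sum_congr rfl fun i hi => ?_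
    rw [Function.update_of_ne (Finset.mem_erase.mp (Finset.mem_erase.mp hi).2).1]
  rw [hupR, hupk, hup1, mul_one] at hsp
  -- the coordinate `k` is not small
  have hkbig : 1 / (2 * m) ≤ |u k| := by
    obtain ⟨i, hi⟩ := hu
    by_cases hii : i = i₁
    · rw [hii] at hi
      have h3 : |u i₁| ≤ ε + m * |u k| := by
        have h4 : u i₁ = (∑ i, u i * Function.update D i₁ 1 i) -
            ∑ i ∈ univ.erase i₁, u i * D i := by
          rw [← Finset.add_sum_erase univ (fun i => u i * Function.update D i₁ 1 i)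
            (Finset.mem_univ i₁), hup1, mul_one]
          have : ∑ i ∈ univ.erase i₁, u i * Function.update D i₁ 1 i =
              ∑ i ∈ univ.erase i₁, u i * D i := by
            refine Finset.sum_congr rfl fun i hi => ?_
            rw [Function.update_of_ne (Finset.mem_erase.mp hi).1]
          rw [this]
          ring
        have h5 : |∑ i ∈ univ.erase i₁, u i * D i| ≤ m * |u k| := by
          refine (Finset.abs_sum_le_sum_abs _ _).trans ?_
          have h6 : ∀ i ∈ univ.erase i₁, |u i * D i| ≤ |u k| := by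
            intro i hi
            rw [abs_mul]
            calc |u i| * |D i| ≤ |u k| * 1 :=
                  mul_le_mul (hkmax i hi) (hD i) (abs_nonneg _) (abs_nonneg _)
              _ = |u k| := mul_one _
          refine (Finset.sum_le_card_nsmul _ _ _ h6).trans ?_
          rw [nsmul_eq_mul]
          refine mul_le_mul_of_nonneg_right ?_ (abs_nonneg _)
          have h7 : (univ.erase i₁).card ≤ m := by
            refine (Finset.card_le_univ _).trans ?_
            rw [Fintype.card_fin]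
          exact_mod_cast h7
        calc |u i₁| = |(∑ i, u i * Function.update D i₁ 1 i) -
              ∑ i ∈ univ.erase i₁, u i * D i| := by rw [← h4]
          _ ≤ |∑ i, u i * Function.update D i₁ 1 i| + |∑ i ∈ univ.erase i₁, u i * D i| :=
              abs_sub _ _
          _ ≤ ε + m * |u k| := add_le_add h1 h5
      rw [div_le_iff₀ (by positivity)]
      nlinarith
    · have h3 := hkmax i (by simp [hii])
      have h4 : 1 / (2 * (m : ℝ)) ≤ 1 := by
        rw [div_le_one (by positivity)]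
        linarith
      linarith
  have huk0 : u k ≠ 0 := by
    intro h
    rw [h, abs_zero] at hkbig
    have : (0 : ℝ) < 1 / (2 * m) := by positivity
    linarith
  have hukp : 0 < |u k| := abs_pos.mpr huk0
  -- the coordinate `k`
  have f1 : D k - -(u i₁ / u k) - ∑ i ∈ (univ.erase i₁).erase k, -(u i / u k) * D i =
      (∑ i, u i * Function.update D i₁ 1 i) / u k := by
    rw [hsp]
    have : ∑ i ∈ (univ.erase i₁).erase k, -(u i / u k) * D i =
        -((∑ i ∈ (univ.erase i₁).erase k, u i * D i) / u k) := by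
      rw [Finset.sum_div, ← Finset.sum_neg_distrib]
      refine Finset.sum_congr rfl fun i _ => ?_
      ring
    rw [this]
    field_simp
    ring
  have f2 : |D k - -(u i₁ / u k) - ∑ i ∈ (univ.erase i₁).erase k, -(u i / u k) * D i| ≤
      2 * m * ε := by
    rw [f1, abs_div, div_le_iff₀ hukp]
    have h3 : 1 ≤ 2 * m * |u k| := by
      rw [div_le_iff₀ (by positivity)] at hkbig
      linarith
    calc |∑ i, u i * Function.update D i₁ 1 i| ≤ ε := h1
      _ = ε * 1 := (mul_one ε).symm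
      _ ≤ ε * (2 * m * |u k|) := mul_le_mul_of_nonneg_left h3 hε0
      _ = 2 * m * ε * |u k| := by ring
  -- the coordinate `i₁`
  have f3 : D i₁ - (n + s k * -(u i₁ / u k)) -
      ∑ i ∈ (univ.erase i₁).erase k, (s i + s k * -(u i / u k)) * D i =
      (D i₁ - n - ∑ j, s j * D j) +
        s k * (D k - -(u i₁ / u k) - ∑ i ∈ (univ.erase i₁).erase k, -(u i / u k) * D i) := by
    rw [sum_split i₁ k hk (fun j => s j * D j), hs1]
    have : ∑ i ∈ (univ.erase i₁).erase k, (s i + s k * -(u i / u k)) * D i =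
        ∑ i ∈ (univ.erase i₁).erase k, s i * D i +
          s k * ∑ i ∈ (univ.erase i₁).erase k, -(u i / u k) * D i := by
      rw [Finset.mul_sum, ← Finset.sum_add_distrib]
      refine Finset.sum_congr rfl fun i _ => ?_
      ring
    rw [this]
    ring
  have hmε : 0 ≤ 2 * m * ε := by positivity
  intro i
  by_cases hik : i = k
  · rw [hik, e1]
    linarith
  · by_cases hi1 : i = i₁
    · rw [hi1, e2, f3]
      refine (abs_add_le _ _).trans (add_le_add h2 ?_)
      rw [abs_mul]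
      calc |s k| * |D k - -(u i₁ / u k) - ∑ i ∈ (univ.erase i₁).erase k, -(u i / u k) * D i| ≤
            1 * (2 * m * ε) := mul_le_mul (hs k) f2 (abs_nonneg _) (by norm_num)
        _ = 2 * m * ε := one_mul _
    · rw [e3 i hik hi1, abs_zero]
      positivity

/-- The best slab. -/
lemma exists_best {Ω X : Type} [Fintype Ω] (q : Ω → ℝ) {m : ℕ} (i₁ : Fin m) (pt : Ω → X)
    (E : Ω → Fin m → ℝ) (ε : ℝ) (x : X) :
    ∃ u : Fin m → ℝ, (∃ i, 1 ≤ |u i|) ∧ ∀ v : Fin m → ℝ, (∃ i, 1 ≤ |v i|) →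
      Pb q (fun ω => pt ω = x ∧ |∑ i, v i * E ω i| ≤ ε) ≤
        Pb q (fun ω => pt ω = x ∧ |∑ i, u i * E ω i| ≤ ε) := by
  classical
  set V : Set ℝ := (fun v : Fin m → ℝ => Pb q (fun ω => pt ω = x ∧ |∑ i, v i * E ω i| ≤ ε)) ''
    {v | ∃ i, 1 ≤ |v i|} with hV
  have hfin : V.Finite := by
    refine (Set.finite_range fun s : Set Ω => Pb q (fun ω => ω ∈ s)).subset ?_
    rintro _ ⟨v, _, rfl⟩
    exact ⟨{ω | pt ω = x ∧ |∑ i, v i * E ω i| ≤ ε}, rfl⟩
  have hne : V.Nonempty := ⟨_, ⟨fun _ => 1, ⟨i₁, by norm_num⟩, rfl⟩⟩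
  obtain ⟨a, ⟨u, hu, rfl⟩, hmax⟩ := Set.exists_max_image V id hfin hne
  exact ⟨u, hu, fun v hv => hmax _ ⟨v, hv, rfl⟩⟩

end Nco

open Nco in
theorem nco_thm : NCOStmt := by
  classical
  intro m κ hm hκ
  obtain ⟨z₀, hz₀⟩ : ∃ z₀ : ℕ, ∀ z : ℕ, z₀ ≤ z → (2 * m + 1 : ℝ) ≤ Real.exp (κ * z / 4) := by
    refine ⟨⌈(2 * m + 1) * 4 / κ⌉₊, fun z hz => ?_⟩
    have h1 : (2 * m + 1) * 4 / κ ≤ z := (Nat.le_ceil _).trans (by exact_mod_cast hz)
    rw [div_le_iff₀ hκ] at h1
    have h2 := Real.add_one_le_exp (κ * z / 4)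
    linarith
  refine ⟨z₀, ?_⟩
  intro J r z h ψ g F i₁ A B hz hr hA hCh hκh hgJ hg hSp hBA hAB
  have hmr : (2 : ℝ) ≤ m := by exact_mod_cast hm
  have hexp := hz₀ z hz
  have hB0 : 0 < Pe F.p B := by
    by_contra hcon
    have h1 : Pe F.p B = 0 := le_antisymm (not_lt.mp hcon) (Pe_nonneg F.isLaw B)
    rw [h1, mul_zero] at hAB
    have : 0 < Real.exp (-(ψ * J)) * Pe F.p A := by positivity
    linarith
  obtain ⟨q, hq⟩ : ∃ q : F.Ω → ℝ, q = Pool.Agent.H49.Ent.cond F.p B True := ⟨_, rfl⟩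
  have hq0 : ∀ ω, 0 ≤ q ω := fun ω => by
    rw [hq]
    exact cond_nonneg F.isLaw.nonneg B True ω
  have hqB : ∀ ω, q ω = if B ω then F.p ω / Pe F.p B else 0 := by
    intro ω
    rw [hq]
    unfold Pool.Agent.H49.Ent.cond
    by_cases hω : B ω <;> simp [hω]
  obtain ⟨E, hE⟩ : ∃ E : F.Ω → Fin m → ℝ, E = fun ω => Function.update (F.d ω) i₁ 1 := ⟨_, rfl⟩
  obtain ⟨ε, hε⟩ : ∃ ε : ℝ, ε = Real.exp (-(κ * z)) := ⟨_, rfl⟩
  choose U hU1 hU2 using fun x => exists_best q i₁ (ptr F r) E ε x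
  obtain ⟨e, he⟩ : ∃ e : (Fin m → ℤ) × (ℕ × F.ζ) → ℝ, e = fun x =>
      Pb q (fun ω => ptr F r ω = x ∧ |∑ i, U x i * E ω i| ≤ ε) / law q (ptr F r) x := ⟨_, rfl⟩
  have hPb0 : ∀ A : F.Ω → Prop, 0 ≤ Pb q A := by
    intro A
    unfold Pb
    exact Finset.sum_nonneg fun ω _ => by split_ifs; exacts [hq0 ω, le_rfl]
  have he0 : ∀ x, 0 ≤ e x := by
    intro x
    rw [he]
    exact div_nonneg (hPb0 _) (law_nonneg hq0 _ _)
  rw [← hq, ← hε]
  refine ⟨e, he0, ?_, ?_⟩
  · -- the mean of `e`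
    by_contra hcon
    push Not at hcon
    obtain ⟨S, hS⟩ : ∃ S : F.Ω → Prop, S = fun ω => |∑ i, U (ptr F r ω) i * E ω i| ≤ ε :=
      ⟨_, rfl⟩
    have hle : ∀ x, law q (ptr F r) x * e x ≤
        Pb q (fun ω => ptr F r ω = x ∧ |∑ i, U x i * E ω i| ≤ ε) := by
      intro x
      rw [he]
      simp only
      by_cases h0 : law q (ptr F r) x = 0
      · rw [h0, zero_mul]
        exact hPb0 _
      · rw [mul_div_cancel₀ _ h0]
    have hEx : Ex q (fun ω => e (ptr F r ω)) ≤ Pb q S := by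
      unfold Ex
      rw [sum_mul_eq_sum_image q (ptr F r) e]
      refine (Finset.sum_le_sum fun x _ => hle x).trans (le_of_eq ?_)
      unfold Pb
      rw [Finset.sum_comm]
      refine Finset.sum_congr rfl fun ω _ => ?_
      rw [Finset.sum_eq_single (ptr F r ω)]
      · rw [hS]
        simp
      · intro x _ hx
        rw [if_neg]
        rintro ⟨h1, _⟩
        exact hx h1.symm
      · intro hx
        exact absurd (Finset.mem_image_of_mem _ (Finset.mem_univ ω)) hx
    have hκS : κ ≤ Pb q S := (hcon.trans_le hEx).le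
    have hPe : Pe F.p (fun ω => B ω ∧ S ω) = Pb q S * Pe F.p B := by
      rw [Pe_eq]
      unfold Pb
      rw [Finset.sum_mul]
      refine Finset.sum_congr rfl fun ω _ => ?_
      rw [hqB ω]
      by_cases h1 : B ω <;> by_cases h2 : S ω <;> simp [h1, h2, hB0.ne']
    refine hSp (fun ω => B ω ∧ S ω) (fun ω hω => hBA ω hω.1) ?_ ?_
    · rw [hPe]
      exact hAB.trans (mul_le_mul_of_nonneg_right hκS hB0.le)
    · -- the plane
      obtain ⟨φ, hφ⟩ := ptr_coarse F hr
      obtain ⟨nn, ss, hch⟩ := hCh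
      choose P hP using fun y => slab_plane hm i₁ (U (φ y)) (ss y) (nn y)
      refine ⟨P, fun ω hω => ?_⟩
      obtain ⟨g1, g2, g3⟩ := hch ω (hBA ω hω.1)
      have hεh : ε ≤ 1 / 2 := by
        rw [hε, Real.exp_neg, inv_eq_one_div]
        refine one_div_le_one_div_of_le (by norm_num) ?_
        have h1 : Real.exp (κ * z / 4) ≤ Real.exp (κ * z) := by
          apply Real.exp_le_exp.mpr
          have : 0 ≤ κ * z := by positivity
          linarith
        linarith
      have h2 := hω.2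
      rw [hS] at h2
      rw [hφ ω, ptr_J, hE] at h2
      obtain ⟨c, hc⟩ := hP (Fam.pt F ω) (F.d ω) ε (1 / 2 ^ h) (hU1 _) (F.dir ω) hεh (by positivity)
        h2 g1 g2 g3
      refine ⟨c, fun i => (hc i).trans ?_⟩
      -- the numbers
      have hX : 0 < Real.exp (-(κ * z / 4)) := Real.exp_pos _
      have k1 : (1 : ℝ) / 2 ^ h ≤ Real.exp (-(κ * z / 4)) * Real.exp (-(κ * z / 4)) := by
        rw [← Real.exp_add]
        have h3 : (2 : ℝ) ^ h = Real.exp (h * Real.log 2) := by
          rw [Real.exp_nat_mul, Real.exp_log (by norm_num)]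
        rw [h3, one_div, ← Real.exp_neg]
        apply Real.exp_le_exp.mpr
        linarith
      have k2 : ε ≤ Real.exp (-(κ * z / 4)) * Real.exp (-(κ * z / 4)) := by
        rw [hε, ← Real.exp_add]
        apply Real.exp_le_exp.mpr
        have : 0 ≤ κ * z := by positivity
        linarith
      have k3 : Real.exp (-(κ * z / 4)) ≤ 1 / 2 ^ ⌊g * J⌋₊ := by
        have h3 : (2 : ℝ) ^ ⌊g * J⌋₊ = Real.exp (⌊g * J⌋₊ * Real.log 2) := by
          rw [Real.exp_nat_mul, Real.exp_log (by norm_num)]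
        rw [h3, one_div, ← Real.exp_neg]
        apply Real.exp_le_exp.mpr
        have h4 : (⌊g * J⌋₊ : ℝ) ≤ g * J := Nat.floor_le (by positivity)
        have h5 : Real.log 2 ≤ 1 := by linarith [Real.log_two_lt_d9]
        have h6 : (⌊g * J⌋₊ : ℝ) * Real.log 2 ≤ ⌊g * J⌋₊ :=
          mul_le_of_le_one_right (Nat.cast_nonneg _) h5
        linarith
      have k4 : (1 + 2 * m) * Real.exp (-(κ * z / 4)) ≤ 1 := by
        rw [Real.exp_neg, ← div_eq_mul_inv, div_le_one (Real.exp_pos _)]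
        linarith
      calc 1 / 2 ^ h + 2 * m * ε ≤
            Real.exp (-(κ * z / 4)) * Real.exp (-(κ * z / 4)) +
              2 * m * (Real.exp (-(κ * z / 4)) * Real.exp (-(κ * z / 4))) := by
            have := mul_le_mul_of_nonneg_left k2 (show (0 : ℝ) ≤ 2 * m by positivity)
            linarith
        _ = (1 + 2 * m) * Real.exp (-(κ * z / 4)) * Real.exp (-(κ * z / 4)) := by ring
        _ ≤ 1 * Real.exp (-(κ * z / 4)) := mul_le_mul_of_nonneg_right k4 hX.le
        _ = Real.exp (-(κ * z / 4)) := one_mul _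
        _ ≤ _ := k3
  · intro ω hω u hu
    have h1 := hU2 (ptr F r ω) u hu
    have h2 : 0 < law q (ptr F r) (ptr F r ω) := law_pos hq0 _ hω
    have h3 : e (ptr F r ω) * law q (ptr F r) (ptr F r ω) =
        Pb q (fun ω' => ptr F r ω' = ptr F r ω ∧ |∑ i, U (ptr F r ω) i * E ω' i| ≤ ε) := by
      rw [he]
      simp only
      rw [div_mul_cancel₀ _ h2.ne']
    rw [h3]
    rw [hE] at h1 ⊢
    exact h1

end Pool.BFL
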