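import Pool.Agent.H58.BFL.VenDet

/-!
# Row VEN: the variable `V` of the next level costs little
-/

set_option autoImplicit false

namespace Pool.BFL

open Finset Real
open Pool.Agent.H49.Ent Pool.Agent.H32.Dense Pool.STK
open Pool.Agent.H36.KBX (bx mem_bx support_bx)

namespace Ven

lemma tf_le {a S : ℝ} (ha : 0 ≤ a) (hS : 0 ≤ S) (x : ℝ) : |(tf a S x : ℝ)| ≤ a * S + 1 := by
  unfold tf
  split_ifs with h
  · have h1 := Int.floor_le (a * x)
    have h2 := Int.lt_floor_add_one (a * x)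
    have h3 := abs_le.mp h
    have h4 : a * x ≤ a * S := mul_le_mul_of_nonneg_left h3.2 ha
    have h5 : a * (-S) ≤ a * x := mul_le_mul_of_nonneg_left h3.1 ha
    rw [abs_le]
    constructor <;> linarith
  · rw [Int.cast_zero, abs_zero]
    positivity

lemma tf_eq {a S x : ℝ} (h : |x| ≤ S) : tf a S x = ⌊a * x⌋ := by
  unfold tf
  rw [if_pos h]

lemma tf_zero (a : ℝ) {S : ℝ} : tf a S 0 = 0 := by
  unfold tf
  split_ifs <;> simp

/-- The position is a position of the window. -/
lemma Yt_eq {n : ℕ} (D : Dat n) {J v : ℕ} (hv : v ≤ J) (ω : D.Ω) :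
    ∃ t ∈ Set.Icc (0 : ℝ) 1, D.Yt J v ω t = D.Y J ω := by
  have h2 : (0 : ℝ) < 2 ^ (J - v) := by positivity
  refine ⟨((D.T ω % 2 ^ (J - v) : ℕ) : ℝ) / 2 ^ (J - v), ⟨by positivity, ?_⟩, ?_⟩
  · rw [div_le_one h2]
    have h3 : D.T ω % 2 ^ (J - v) < 2 ^ (J - v) := Nat.mod_lt _ (by positivity)
    have : ((D.T ω % 2 ^ (J - v) : ℕ) : ℝ) < ((2 ^ (J - v) : ℕ) : ℝ) := by exact_mod_cast h3
    push_cast at this ⊢
    exact this.le
  · funext i
    unfold Dat.Yt Dat.Y
    congr 2
    have h3 : ((2 ^ (J - v) * (D.T ω / 2 ^ (J - v)) + D.T ω % 2 ^ (J - v) : ℕ) : ℝ) = D.T ω := by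
      rw [Nat.div_add_mod]
    rw [Nat.cast_add, Nat.cast_mul, Nat.cast_pow, Nat.cast_ofNat] at h3
    have h4 : (2 : ℝ) ^ J = 2 ^ (J - v) * 2 ^ v := by
      rw [← pow_add]; congr 1; omega
    rw [h4, ← h3]
    field_simp

end Ven

open Ven in
theorem ven_thm (hLJT : LJTStmt) (hVST : VSTStmt) (hJET : JETStmt) : VENStmt := by
  classical
  intro n K j C₁ hn hj hjK hC₁
  obtain ⟨CV, hCV1, hCV⟩ := hVST n K j C₁ hn hj hjK hC₁
  obtain ⟨CJ, hCJ1, hCJ⟩ := hJET n K j C₁ hn hC₁
  refine ⟨CJ + 1, by linarith only [hCJ1], ?_⟩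
  intro C₂ hC₂
  obtain ⟨P, hP⟩ : ∃ P : ℕ, P = (bx n K).card := ⟨_, rfl⟩
  obtain ⟨C₅, hC₅⟩ : ∃ C₅ : ℝ, C₅ = CV + CJ + 2 * C₁ + 2 := ⟨_, rfl⟩
  have hC₅0 : 0 ≤ C₅ := by rw [hC₅]; linarith only [hC₁, hCV1, hCJ1]
  have hC₂0 : 0 ≤ C₂ := by linarith only [hCJ1, hC₂]
  refine ⟨1 + 3 * n + P * (C₅ + C₂ + 5), by
    have : (0 : ℝ) ≤ 3 * n + P * (C₅ + C₂ + 5) := by positivity
    linarith only [this], ?_⟩
  intro B U hU hUB
  have hB : 2 ≤ B := by omega
  have hBr : (2 : ℝ) ≤ B := by exact_mod_cast hB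
  have hη0 : (0 : ℝ) < 1 / (3 * B) := by positivity
  have hη1 : (1 : ℝ) / (3 * B) ≤ 1 := by
    rw [div_le_one (by positivity)]
    linarith only [hBr]
  obtain ⟨κV, hκV, zV, hV⟩ := hCV B U (1 / (3 * B)) hU (by omega) hη0 hη1
  obtain ⟨κJ, hκJ, zJ, hJ⟩ := hCJ B (1 / (3 * B)) (by omega) hη0 hη1
  obtain ⟨Cx, hCx⟩ : ∃ Cx : ℝ, Cx = 3 + n * (K + 1) +
    2 * (n * (K + 1)) ^ 2 * (1 + n * (K + 1) : ℝ) ^ (K + 1) := ⟨_, rfl⟩
  refine ⟨min (min κV κJ) (1 / 4), by positivity, max (max zV zJ) (max 2 ⌈Cx⌉₊), ?_⟩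
  intro J r w₀ z M k k' D q Q Q' Qb Qb' hz hOk hkk hk'M hHk hHk' hT hT'
  have hzV : zV ≤ z := le_trans (le_trans (le_max_left _ _) (le_max_left _ _)) hz
  have hzJ : zJ ≤ z := le_trans (le_trans (le_max_right _ _) (le_max_left _ _)) hz
  have hz2 : 2 ≤ z := le_trans (le_trans (le_max_left _ _) (le_max_right _ _)) hz
  have hzC : ⌈Cx⌉₊ ≤ z := le_trans (le_trans (le_max_right _ _) (le_max_right _ _)) hz
  exact by
   have hzr : (1 : ℝ) ≤ z := by exact_mod_cast (by omega : 1 ≤ z)
   have hCxe : Cx ≤ Real.exp z := by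
     have h1 : Cx ≤ z := (Nat.le_ceil Cx).trans (by exact_mod_cast hzC)
     linarith only [h1, Real.add_one_le_exp (z : ℝ)]
   have hp := hOk.isLaw
   obtain ⟨v, rfl⟩ : ∃ v, k' = k + v := ⟨k' - k, by omega⟩
   have hvB : v + U = B := by omega
   -- the good event
   obtain ⟨Gd, hGd⟩ : ∃ Gd : D.Ω → Prop, Gd = fun ω => D.JGd K J w₀ z B k j CJ Q ω ∧
       D.JGd K J w₀ z B (k + v) j CJ Q' ω ∧
       CB (dE (D.E (D.ln ω)) (jt j (Q' (D.wn J (w₀ + (k + v) * z) ω) -
         Q (D.wn J (w₀ + k * z) ω)) (D.Y J ω)))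
         (Real.exp (CV * z) * 2 ^ ((j - 1) * (w₀ + (k + B) * z) + (w₀ + (k + v) * z)) /
           2 ^ D.g (k + B)) := ⟨_, rfl⟩
   have hjr : (j : ℝ) ≤ K := by exact_mod_cast hjK
   have hbad : Pb q (fun ω => ¬ Gd ω) ≤ 1 / B := by
     have h1 := hJ J r w₀ z M k j D q Q Qb hzJ (Ok_mono hOk
       ((min_le_left _ _).trans (min_le_right _ _))) (by omega) le_rfl hjr hHk hT
     have h2 := hJ J r w₀ z M (k + v) j D q Q' Qb' hzJ (Ok_mono hOk
       ((min_le_left _ _).trans (min_le_right _ _))) hk'M le_rfl hjr hHk' hT'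
     have h3 := hV J r w₀ z M k (k + v) D q Q Q' Qb Qb' hzV (Ok_mono hOk
       ((min_le_left _ _).trans (min_le_left _ _))) hkk hk'M hHk hHk' hT hT'
     have h4 : Pb q (fun ω => ¬ Gd ω) ≤
         Pb q (fun ω => ¬ D.JGd K J w₀ z B k j CJ Q ω ∨
           (¬ D.JGd K J w₀ z B (k + v) j CJ Q' ω ∨
           ¬ CB (dE (D.E (D.ln ω)) (jt j (Q' (D.wn J (w₀ + (k + v) * z) ω) -
         Q (D.wn J (w₀ + k * z) ω)) (D.Y J ω)))
         (Real.exp (CV * z) * 2 ^ ((j - 1) * (w₀ + (k + B) * z) + (w₀ + (k + v) * z)) /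
           2 ^ D.g (k + B)))) := by
       refine Pb_mono hp.nonneg fun ω _ h => ?_
       rw [hGd] at h
       tauto
     have h5 := h4.trans (Pb_or_le hp.nonneg)
     have h6 := Pb_or_le hp.nonneg (A := fun ω => ¬ D.JGd K J w₀ z B (k + v) j CJ Q' ω)
       (B := fun ω => ¬ CB (dE (D.E (D.ln ω)) (jt j (Q' (D.wn J (w₀ + (k + v) * z) ω) -
         Q (D.wn J (w₀ + k * z) ω)) (D.Y J ω)))
         (Real.exp (CV * z) * 2 ^ ((j - 1) * (w₀ + (k + B) * z) + (w₀ + (k + v) * z)) /
           2 ^ D.g (k + B)))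
     have h7 : (1 : ℝ) / (3 * B) + (1 / (3 * B) + 1 / (3 * B)) = 1 / B := by
       field_simp
       norm_num
     linarith only [h1, h2, h3, h5, h6, h7]
   -- the polynomials
   exact by
    have htbdeg : ∀ (k₁ : ℕ) (Q₁ : D.Λ × ℕ → Pl n), (∀ x, (Q₁ x).totalDegree ≤ K) → ∀ ω,
        (D.tb J w₀ z j k₁ Q₁ ω).totalDegree ≤ K := by
      intro k₁ Q₁ h ω
      exact dD_deg (jt_deg ((MvPolynomial.totalDegree_sub _ _).trans
        (max_le (h _) (hOk.F_deg _ _))) _) _
    have htb0 : ∀ (k₁ : ℕ) (Q₁ : D.Λ × ℕ → Pl n), (∀ x, (Q₁ x).totalDegree ≤ K) → ∀ ω,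
        ∀ m, m ∉ bx n K → (D.tb J w₀ z j k₁ Q₁ ω).coeff m = 0 := by
      intro k₁ Q₁ h ω m hm
      by_contra hne
      exact hm (support_bx _ (htbdeg k₁ Q₁ h ω) (MvPolynomial.mem_support_iff.mpr hne))
    have hnK : (n : ℝ) * (K + 1) ≤ Real.exp z := by
      refine le_trans ?_ hCxe
      rw [hCx]
      have : (0 : ℝ) ≤ 2 * (n * (K + 1)) ^ 2 * (1 + n * (K + 1) : ℝ) ^ (K + 1) := by positivity
      linarith only [this]
    -- the size of the tensors
    have hsize : ∀ (k₁ : ℕ) (Q₁ : D.Λ × ℕ → Pl n), (∀ x, (Q₁ x).totalDegree ≤ K) → k₁ ≤ M →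
        ∀ ω, D.JGd K J w₀ z B k₁ j CJ Q₁ ω → ∀ m, |(D.tb J w₀ z j k₁ Q₁ ω).coeff m| ≤
          Real.exp (C₂ * z) * 2 ^ (j * (w₀ + k₁ * z)) / 2 ^ D.g k₁ := by
      intro k₁ Q₁ h hk₁ ω hJG m
      have hv : w₀ + k₁ * z ≤ J := by
        have h1 := hOk.top
        have h2 := hOk.r_le
        have h3 : k₁ * z ≤ (M + 1) * z := Nat.mul_le_mul_right z (by omega)
        omega
      obtain ⟨t, ht, hYt⟩ := Yt_eq D hv ω
      have h1 := hJG.b3 t ht j le_rfl
      rw [hYt] at h1
      have h2 := CB_dD (jt_deg ((MvPolynomial.totalDegree_sub _ _).trans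
        (max_le (h _) (hOk.F_deg _ _))) _) h1 (hOk.E_le (D.ln ω)) m
      refine h2.trans ?_
      have h3 : Real.exp (C₂ * z) = Real.exp (C₂ * z - CJ * z) * Real.exp (CJ * z) := by
        rw [← Real.exp_add]; congr 1; ring
      have h4 : (n : ℝ) * (K + 1) ≤ Real.exp (C₂ * z - CJ * z) := by
        refine hnK.trans (Real.exp_le_exp.mpr ?_)
        have : 1 * (z : ℝ) ≤ (C₂ - CJ) * z := mul_le_mul_of_nonneg_right (by linarith only [hC₂]) (by linarith only [hzr])
        linarith only [this]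
      rw [h3]
      calc n * 1 * (K + 1) * (Real.exp (CJ * z) * 2 ^ (j * (w₀ + k₁ * z)) / 2 ^ D.g k₁) =
            n * (K + 1) * (Real.exp (CJ * z) * 2 ^ (j * (w₀ + k₁ * z)) / 2 ^ D.g k₁) := by ring
        _ ≤ Real.exp (C₂ * z - CJ * z) *
            (Real.exp (CJ * z) * 2 ^ (j * (w₀ + k₁ * z)) / 2 ^ D.g k₁) :=
            mul_le_mul_of_nonneg_right h4 (by positivity)
        _ = _ := by ring
    -- the digits of the tensors
    exact by
     obtain ⟨X, hX⟩ : ∃ X : ℕ → (D.Λ × ℕ → Pl n) → D.Ω → (bx n K) → ℤ,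
         X = fun k₁ Q₁ ω (m : bx n K) =>
           tf ((2 : ℝ) ^ (D.g k₁ + U * z) / 2 ^ (j * (w₀ + k₁ * z)))
           (Real.exp (C₂ * z) * 2 ^ (j * (w₀ + k₁ * z)) / 2 ^ D.g k₁)
           ((D.tb J w₀ z j k₁ Q₁ ω).coeff m.1) := ⟨_, rfl⟩
     obtain ⟨L, hL⟩ : ∃ L : ℕ, L = ⌈(2 : ℝ) ^ (U * z) * Real.exp (C₂ * z)⌉₊ + 1 := ⟨_, rfl⟩
     have hL1 : (2 : ℝ) ^ (U * z) * Real.exp (C₂ * z) + 1 ≤ L := by
       rw [hL]
       push_cast
       linarith only [Nat.le_ceil ((2 : ℝ) ^ (U * z) * Real.exp (C₂ * z))]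
     have hXL : ∀ k₁ Q₁ ω (m : bx n K), |X k₁ Q₁ ω m| ≤ L := by
       intro k₁ Q₁ ω m
       have h1 := tf_le (a := (2 : ℝ) ^ (D.g k₁ + U * z) / 2 ^ (j * (w₀ + k₁ * z)))
         (S := Real.exp (C₂ * z) * 2 ^ (j * (w₀ + k₁ * z)) / 2 ^ D.g k₁) (by positivity)
         (by positivity) ((D.tb J w₀ z j k₁ Q₁ ω).coeff m)
       have h2 : (2 : ℝ) ^ (D.g k₁ + U * z) / 2 ^ (j * (w₀ + k₁ * z)) *
           (Real.exp (C₂ * z) * 2 ^ (j * (w₀ + k₁ * z)) / 2 ^ D.g k₁) =
           2 ^ (U * z) * Real.exp (C₂ * z) := by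
         rw [pow_add]
         field_simp
       rw [h2] at h1
       have h3 : (|X k₁ Q₁ ω m| : ℝ) ≤ L := by
         rw [hX]
         exact h1.trans hL1
       exact_mod_cast h3
     have hLlog : Real.log (2 * L + 1) ≤ U * z + C₂ * z + 2 := by
       have h1 : (2 : ℝ) * L + 1 ≤ 7 * ((2 : ℝ) ^ (U * z) * Real.exp (C₂ * z)) := by
         rw [hL]
         push_cast
         have h2 : (1 : ℝ) ≤ (2 : ℝ) ^ (U * z) * Real.exp (C₂ * z) := by
           have h3 : (1 : ℝ) ≤ 2 ^ (U * z) := one_le_pow₀ (by norm_num)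
           have h4 : (1 : ℝ) ≤ Real.exp (C₂ * z) := Real.one_le_exp (by positivity)
           exact one_le_mul_of_one_le_of_one_le h3 h4
         have h5 := (Nat.ceil_lt_add_one (show (0 : ℝ) ≤ (2 : ℝ) ^ (U * z) * Real.exp (C₂ * z) by
           positivity)).le
         linarith only [h2, h5]
       refine (Real.log_le_log (by positivity) h1).trans ?_
       rw [Real.log_mul (by norm_num) (by positivity), Real.log_mul (by positivity) (by positivity),
         Real.log_exp, Real.log_pow]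
       have h7 : Real.log 7 ≤ 2 := by
         have h8 : (7 : ℝ) ≤ Real.exp 2 := by
           have h9 := Real.exp_one_gt_d9
           have h10 : Real.exp 2 = Real.exp 1 * Real.exp 1 := by
             rw [← Real.exp_add]; norm_num
           rw [h10]
           nlinarith only [h9]
         calc Real.log 7 ≤ Real.log (Real.exp 2) := Real.log_le_log (by norm_num) h8
           _ = 2 := Real.log_exp 2
       have h8 : ((U * z : ℕ) : ℝ) * Real.log 2 ≤ U * z := by
         push_cast
         have h9 : Real.log 2 ≤ 1 := by linarith only [Real.log_two_lt_d9]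
         have h10 : (0 : ℝ) ≤ U * z := by positivity
         exact mul_le_of_le_one_right h10 h9
       linarith only [h7, h8]
     exact by
      have hcard : Fintype.card (bx n K) = P := by rw [hP, Fintype.card_coe]
      -- `V` and `X`
      have hVX : ∀ k₁ Q₁, (∀ x, (Q₁ x).totalDegree ≤ K) → ∀ ω ω', X k₁ Q₁ ω = X k₁ Q₁ ω' →
          (∀ i, ⌊(2 : ℝ) ^ (B * z) * D.E (D.ln ω) i⌋ = ⌊(2 : ℝ) ^ (B * z) * D.E (D.ln ω') i⌋) →
          D.V J w₀ z j B U k₁ C₂ Q₁ ω = D.V J w₀ z j B U k₁ C₂ Q₁ ω' := by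
        intro k₁ Q₁ h ω ω' hx hE
        unfold Dat.V
        refine Prod.ext ?_ ?_
        · funext i
          exact hE i
        · funext m
          by_cases hm : m ∈ bx n K
          · have := congrFun hx ⟨m, hm⟩
            rw [hX] at this
            exact this
          · change tf _ _ _ = tf _ _ _
            rw [htb0 k₁ Q₁ h ω m hm, htb0 k₁ Q₁ h ω' m hm]
      have hUr : (U : ℝ) ≤ B := by exact_mod_cast (by omega : U ≤ B)
      have hP0 : (0 : ℝ) ≤ P := Nat.cast_nonneg P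
      have hn0 : (0 : ℝ) ≤ n := Nat.cast_nonneg n
      have hBz : (2 : ℝ) ≤ B * z := by
        calc (2 : ℝ) = 2 * 1 := by norm_num
          _ ≤ B * z := mul_le_mul hBr hzr (by norm_num) (by positivity)
      have hzB : (z : ℝ) ≤ B * z := le_mul_of_one_le_left (by positivity) (by linarith only [hBr])
      have hUz : (U : ℝ) * z ≤ B * z := mul_le_mul_of_nonneg_right hUr (by linarith only [hzr])
      constructor
      · -- the entropy of `V`
        obtain ⟨Ed, hEd⟩ : ∃ Ed : D.Ω → Fin n → ℤ,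
            Ed = fun ω i => ⌊(2 : ℝ) ^ (B * z) * D.E (D.ln ω) i⌋ := ⟨_, rfl⟩
        have h1 : H q Ed ≤ n * Real.log (2 * (2 ^ (B * z) : ℕ) + 1) := by
          have h := h_int_vec hp Ed (2 ^ (B * z)) (by
            intro ω _ i
            have h2 := abs_le.mp (hOk.E_le (D.ln ω) i)
            have h3 : (0 : ℝ) < 2 ^ (B * z) := by positivity
            have h4 : -(2 : ℝ) ^ (B * z) ≤ 2 ^ (B * z) * D.E (D.ln ω) i := by
              have := mul_le_mul_of_nonneg_left h2.1 h3.le
              linarith only [this]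
            have h5 : 2 ^ (B * z) * D.E (D.ln ω) i ≤ (2 : ℝ) ^ (B * z) := by
              have := mul_le_mul_of_nonneg_left h2.2 h3.le
              linarith only [this]
            rw [hEd, abs_le]
            constructor
            · apply Int.le_floor.mpr
              push_cast
              exact h4
            · have h6 : (⌊(2 : ℝ) ^ (B * z) * D.E (D.ln ω) i⌋ : ℝ) ≤ 2 ^ (B * z) :=
                (Int.floor_le _).trans h5
              have h7 : ((⌊(2 : ℝ) ^ (B * z) * D.E (D.ln ω) i⌋ : ℤ) : ℝ) ≤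
                  (((2 ^ (B * z) : ℕ) : ℤ) : ℝ) := by
                push_cast
                exact h6
              exact_mod_cast h7)
          rwa [Fintype.card_fin] at h
        have h2 : Real.log (2 * (2 ^ (B * z) : ℕ) + 1) ≤ B * z + 2 := by
          have h3 : (2 : ℝ) * (2 ^ (B * z) : ℕ) + 1 ≤ 3 * 2 ^ (B * z) := by
            push_cast
            have : (1 : ℝ) ≤ 2 ^ (B * z) := one_le_pow₀ (by norm_num)
            linarith only [this]
          refine (Real.log_le_log (by positivity) h3).trans ?_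
          rw [Real.log_mul (by norm_num) (by positivity), Real.log_pow]
          have h7 : Real.log 3 ≤ 2 := by
            have := Real.log_le_sub_one_of_pos (show (0 : ℝ) < 3 by norm_num)
            linarith only [this]
          have h8 : ((B * z : ℕ) : ℝ) * Real.log 2 ≤ B * z := by
            push_cast
            have h9 : Real.log 2 ≤ 1 := by linarith only [Real.log_two_lt_d9]
            exact mul_le_of_le_one_right (by positivity) h9
          linarith only [h7, h8]
        have h3 := h_int_vec hp (X k Q) L (fun ω _ m => hXL k Q ω m)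
        rw [hcard] at h3
        have h4 : H q (D.V J w₀ z j B U k C₂ Q) ≤ H q Ed + H q (X k Q) := by
          refine subadd hp.nonneg hp.sum_one ?_
          intro ω ω' _ _ h
          have h5 := Prod.ext_iff.mp h
          refine hVX k Q hT.deg ω ω' h5.2 fun i => ?_
          have h6 := congrFun h5.1 i
          rw [hEd] at h6
          exact h6
        have h5 : (n : ℝ) * Real.log (2 * (2 ^ (B * z) : ℕ) + 1) ≤ n * (B * z + 2) :=
          mul_le_mul_of_nonneg_left h2 hn0
        have h6 : (P : ℝ) * Real.log (2 * L + 1) ≤ P * (U * z + C₂ * z + 2) :=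
          mul_le_mul_of_nonneg_left hLlog hP0
        have h7 : (n : ℝ) * (B * z + 2) ≤ 3 * n * (B * z) := by
          have := mul_le_mul_of_nonneg_left (show (B : ℝ) * z + 2 ≤ 3 * (B * z) by linarith only [hBz]) hn0
          linarith only [this]
        have h8 : (U : ℝ) * z + C₂ * z + 2 ≤ (C₅ + C₂ + 5) * (B * z) := by
          have h9 : C₂ * z ≤ C₂ * (B * z) := mul_le_mul_of_nonneg_left hzB hC₂0
          have h10 : 0 ≤ C₅ * (B * z) := by positivity
          linarith only [hBz, hUz, h9, h10]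
        have h9 : (P : ℝ) * (U * z + C₂ * z + 2) ≤ P * ((C₅ + C₂ + 5) * (B * z)) :=
          mul_le_mul_of_nonneg_left h8 hP0
        calc H q (D.V J w₀ z j B U k C₂ Q) ≤ 3 * n * (B * z) + P * ((C₅ + C₂ + 5) * (B * z)) := by
              linarith only [h1, h3, h4, h5, h6, h7, h9]
          _ ≤ (1 + 3 * n + P * (C₅ + C₂ + 5)) * (B * z) := by
              have : (0 : ℝ) ≤ B * z := by positivity
              linarith only [hBz]
      · -- the conditional entropy
        obtain ⟨R, hR⟩ : ∃ R : ℕ, R = ⌈Real.exp (C₅ * z)⌉₊ + 1 := ⟨_, rfl⟩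
        have hR1 : Real.exp (C₅ * z) + 1 ≤ R := by
          rw [hR]
          push_cast
          linarith only [Nat.le_ceil (Real.exp (C₅ * z))]
        have hRlog : Real.log (2 * R + 1) ≤ C₅ * z + 2 := by
          have h1 : (2 : ℝ) * R + 1 ≤ 7 * Real.exp (C₅ * z) := by
            rw [hR]
            push_cast
            have h2 : (1 : ℝ) ≤ Real.exp (C₅ * z) := Real.one_le_exp (by positivity)
            have h5 := (Nat.ceil_lt_add_one (Real.exp_pos (C₅ * z)).le).le
            linarith only [h2, h5]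
          refine (Real.log_le_log (by positivity) h1).trans ?_
          rw [Real.log_mul (by norm_num) (by positivity), Real.log_exp]
          have h7 : Real.log 7 ≤ 2 := by
            have h8 : (7 : ℝ) ≤ Real.exp 2 := by
              have h9 := Real.exp_one_gt_d9
              have h10 : Real.exp 2 = Real.exp 1 * Real.exp 1 := by
                rw [← Real.exp_add]; norm_num
              rw [h10]
              nlinarith only [h9]
            calc Real.log 7 ≤ Real.log (Real.exp 2) := Real.log_le_log (by norm_num) h8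
              _ = 2 := Real.log_exp 2
          linarith only [h7]
        have hclose : ∀ ω ω', 0 < q ω → 0 < q ω' → Gd ω → Gd ω' →
            (fun ω => (D.V J w₀ z j B U k C₂ Q ω, D.c (k + v + U) ω)) ω =
              (fun ω => (D.V J w₀ z j B U k C₂ Q ω, D.c (k + v + U) ω)) ω' →
            ∀ m, |X (k + v) Q' ω m - X (k + v) Q' ω' m| ≤ R := by
          intro ω ω' hω hω' hg hg' hW m
          rw [hGd] at hg hg'
          have hW' := Prod.ext_iff.mp hW
          have hV1 := Prod.ext_iff.mp hW'.1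
          have hE : ∀ i, |D.E (D.ln ω) i - D.E (D.ln ω') i| ≤ 1 / 2 ^ (B * z) := by
            intro i
            have h1 : ⌊(2 : ℝ) ^ (B * z) * D.E (D.ln ω) i⌋ = ⌊(2 : ℝ) ^ (B * z) * D.E (D.ln ω') i⌋ :=
              congrFun hV1.1 i
            have h2 := Int.abs_sub_lt_one_of_floor_eq_floor h1
            rw [← mul_sub, abs_mul, abs_of_pos (by positivity : (0 : ℝ) < 2 ^ (B * z))] at h2
            rw [le_div_iff₀ (by positivity), mul_comm]
            exact h2.le
          have htb : ∀ m, |(D.tb J w₀ z j k Q ω).coeff m - (D.tb J w₀ z j k Q ω').coeff m| ≤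
              2 ^ (j * (w₀ + k * z)) / 2 ^ (D.g k + U * z) := by
            intro m
            have h1 : tf ((2 : ℝ) ^ (D.g k + U * z) / 2 ^ (j * (w₀ + k * z)))
                (Real.exp (C₂ * z) * 2 ^ (j * (w₀ + k * z)) / 2 ^ D.g k)
                ((D.tb J w₀ z j k Q ω).coeff m) =
                tf ((2 : ℝ) ^ (D.g k + U * z) / 2 ^ (j * (w₀ + k * z)))
                (Real.exp (C₂ * z) * 2 ^ (j * (w₀ + k * z)) / 2 ^ D.g k)
                ((D.tb J w₀ z j k Q ω').coeff m) := congrFun hV1.2 m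
            rw [tf_eq (hsize k Q hT.deg (by omega) ω hg.1 m),
              tf_eq (hsize k Q hT.deg (by omega) ω' hg'.1 m)] at h1
            have h2 := Int.abs_sub_lt_one_of_floor_eq_floor h1
            have h3 : (0 : ℝ) < 2 ^ (D.g k + U * z) / 2 ^ (j * (w₀ + k * z)) := by positivity
            rw [← mul_sub, abs_mul, abs_of_pos h3] at h2
            rw [le_div_iff₀ (by positivity)]
            have h4 := h2.le
            rw [div_mul_eq_mul_div, div_le_one (by positivity)] at h4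
            linarith only [h4]
          have hd := det_close hLJT (κ := min (min κV κJ) (1 / 4)) (Q := Q) (Q' := Q') hj hjK hC₁
            hCV1 hCJ1 (min_le_right _ _) hz2 (by rw [← hCx]; exact hCxe) hU hvB hOk hk'M hHk hω hω'
            hg.1 hg.2.2 hg'.2.2 hE htb hW'.2 m
          rw [← hC₅] at hd
          have e1 : X (k + v) Q' ω m = ⌊(2 : ℝ) ^ (D.g (k + v) + U * z) /
              2 ^ (j * (w₀ + (k + v) * z)) * (D.tb J w₀ z j (k + v) Q' ω).coeff m⌋ := by
            rw [hX]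
            exact tf_eq (hsize (k + v) Q' hT'.deg (by omega) ω hg.2.1 m)
          have e2 : X (k + v) Q' ω' m = ⌊(2 : ℝ) ^ (D.g (k + v) + U * z) /
              2 ^ (j * (w₀ + (k + v) * z)) * (D.tb J w₀ z j (k + v) Q' ω').coeff m⌋ := by
            rw [hX]
            exact tf_eq (hsize (k + v) Q' hT'.deg (by omega) ω' hg'.2.1 m)
          obtain ⟨a, ha⟩ : ∃ a : ℝ, a = (2 : ℝ) ^ (D.g (k + v) + U * z) /
              2 ^ (j * (w₀ + (k + v) * z)) := ⟨_, rfl⟩
          have ha0 : 0 < a := by rw [ha]; positivity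
          rw [← ha] at e1 e2
          have h1 : |a * (D.tb J w₀ z j (k + v) Q' ω).coeff m -
              a * (D.tb J w₀ z j (k + v) Q' ω').coeff m| ≤ Real.exp (C₅ * z) := by
            rw [← mul_sub, abs_mul, abs_of_pos ha0]
            have h2 := mul_le_mul_of_nonneg_left hd ha0.le
            refine h2.trans (le_of_eq ?_)
            rw [ha]
            field_simp
          have h2 := abs_le.mp h1
          have f1 := Int.floor_le (a * (D.tb J w₀ z j (k + v) Q' ω).coeff m)
          have f2 := Int.lt_floor_add_one (a * (D.tb J w₀ z j (k + v) Q' ω).coeff m)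
          have f3 := Int.floor_le (a * (D.tb J w₀ z j (k + v) Q' ω').coeff m)
          have f4 := Int.lt_floor_add_one (a * (D.tb J w₀ z j (k + v) Q' ω').coeff m)
          rw [← e1] at f1 f2
          rw [← e2] at f3 f4
          have h3 : ((|X (k + v) Q' ω m - X (k + v) Q' ω' m| : ℤ) : ℝ) ≤ R := by
            push_cast
            rw [abs_le]
            constructor <;> linarith [h2.1, h2.2]
          exact_mod_cast h3
        have h1 := ch_int_vec hp (X (k + v) Q')
          (fun ω => (D.V J w₀ z j B U k C₂ Q ω, D.c (k + v + U) ω)) Gd R L (1 / B)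
          (fun ω _ m => hXL (k + v) Q' ω m) hclose hbad
        rw [hcard] at h1
        have h2 : CH q (D.V J w₀ z j B U (k + v) C₂ Q')
            (fun ω => (D.V J w₀ z j B U k C₂ Q ω, D.c (k + v + U) ω)) ≤
            CH q (X (k + v) Q') (fun ω => (D.V J w₀ z j B U k C₂ Q ω, D.c (k + v + U) ω)) := by
          refine CH_mono_left hp.nonneg ?_
          intro ω ω' _ _ h
          have h3 := Prod.ext_iff.mp h
          have h4 := Prod.ext_iff.mp h3.2
          have h5 := Prod.ext_iff.mp h4.1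
          exact hVX (k + v) Q' hT'.deg ω ω' h3.1 fun i => congrFun h5.1 i
        have h3 : (P : ℝ) * Real.log (2 * R + 1) ≤ P * (C₅ * z + 2) :=
          mul_le_mul_of_nonneg_left hRlog hP0
        have h4 : (1 : ℝ) / B * (P * Real.log (2 * L + 1)) ≤ P * ((C₂ + 3) * z) := by
          have h5 : (P : ℝ) * Real.log (2 * L + 1) ≤ P * (U * z + C₂ * z + 2) :=
            mul_le_mul_of_nonneg_left hLlog hP0
          have h6 : (U : ℝ) * z + C₂ * z + 2 ≤ B * ((C₂ + 3) * z) := by
            have h7 : C₂ * z ≤ C₂ * (B * z) := mul_le_mul_of_nonneg_left hzB hC₂0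
            have h8 : (B : ℝ) * ((C₂ + 3) * z) = C₂ * (B * z) + 3 * (B * z) := by ring
            rw [h8]
            linarith only [hBz, hUz, h7]
          have h7 : (P : ℝ) * Real.log (2 * L + 1) ≤ P * (B * ((C₂ + 3) * z)) :=
            h5.trans (mul_le_mul_of_nonneg_left h6 hP0)
          calc (1 : ℝ) / B * (P * Real.log (2 * L + 1)) ≤ 1 / B * (P * (B * ((C₂ + 3) * z))) :=
                mul_le_mul_of_nonneg_left h7 (by positivity)
            _ = P * ((C₂ + 3) * z) := by field_simp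
        have h5 : Real.log 2 ≤ 1 * z := by
          linarith only [hzr, Real.log_two_lt_d9]
        have h6 : (P : ℝ) * (C₅ * z + 2) ≤ P * ((C₅ + 2) * z) := by
          refine mul_le_mul_of_nonneg_left ?_ hP0
          linarith only [hzr]
        have h7 : 1 * (z : ℝ) + P * ((C₅ + 2) * z) + P * ((C₂ + 3) * z) ≤
            (1 + 3 * n + P * (C₅ + C₂ + 5)) * z := by
          have h8 : 1 * (z : ℝ) + P * ((C₅ + 2) * z) + P * ((C₂ + 3) * z) =
              (1 + P * (C₅ + C₂ + 5)) * z := by ring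
          rw [h8]
          exact mul_le_mul_of_nonneg_right (by linarith only) (by linarith only [hzr])
        linarith only [h1, h2, h3, h4, h5, h6, h7]

end Pool.BFL
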