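import Pool.Agent.H80.BFL.TRA
import Pool.Agent.H4.BFL.JTE

/-!
# Jets at nearby points
-/

set_option autoImplicit false

namespace Pool.BFL.Ven

open Finset

variable {n : ℕ}

lemma dE_sub (E : Fin n → ℝ) (F G : Pl n) : dE E (F - G) = dE E F - dE E G :=
  dD_sub E F G

lemma jt_high {K i : ℕ} {F : Pl n} (hF : F.totalDegree ≤ K) (hi : K < i) (y : Fin n → ℝ) :
    jt i F y = 0 :=
  MvPolynomial.homogeneousComponent_eq_zero i _ (lt_of_le_of_lt (degree_sh y F hF) hi)

lemma jt_deg {K i : ℕ} {F : Pl n} (hF : F.totalDegree ≤ K) (y : Fin n → ℝ) :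
    (jt i F y).totalDegree ≤ K := by
  by_cases hi : K < i
  · rw [jt_high hF hi y, MvPolynomial.totalDegree_zero]
    exact Nat.zero_le K
  · exact ((Tra.jt_homog i F y).totalDegree_le).trans (by omega)

/-- One step: the difference of the jets is controlled by the next jet. -/
lemma jt_step (hLJT : LJTStmt) {K i : ℕ} {F : Pl n} (hF : F.totalDegree ≤ K)
    {y y' : Fin n → ℝ} {d D : ℝ} (hd : ∀ l, |y' l - y l| ≤ d)
    (hD : ∀ y'' : Fin n → ℝ, (∀ l, |y'' l - y l| ≤ d) → CB (jt (i + 1) F y'') D)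
    (k : Fin n →₀ ℕ) :
    |(jt i F y').coeff k - (jt i F y).coeff k| ≤ n * d * (K + 1) * D := by
  obtain ⟨q, _, h1, h2⟩ := hLJT n K i F y (fun l => y' l - y l) k hF
  obtain ⟨c, hc, hs⟩ := exists_hasDerivAt_eq_slope (fun t => q.eval t)
    (fun t => q.derivative.eval t) (show (0 : ℝ) < 1 by norm_num)
    q.continuous.continuousOn (fun t _ => q.hasDerivAt t)
  have e1 : q.eval 1 = (jt i F y').coeff k := by
    rw [h1]
    congr 2
    funext l
    ring
  have e0 : q.eval 0 = (jt i F y).coeff k := by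
    rw [h1]
    congr 2
    funext l
    ring
  have hs' : q.derivative.eval c = (jt i F y').coeff k - (jt i F y).coeff k := by
    rw [hs, e1, e0]
    ring
  rw [← hs', h2]
  have hnear : ∀ l, |y l + c * (y' l - y l) - y l| ≤ d := by
    intro l
    have h3 : y l + c * (y' l - y l) - y l = c * (y' l - y l) := by ring
    rw [h3, abs_mul, abs_of_pos hc.1]
    have h4 := abs_nonneg (y' l - y l)
    nlinarith [hd l, hc.1, hc.2]
  exact CB_dD (jt_deg hF _) (hD _ hnear) hd k

/-- The high jets at a nearby point. -/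
lemma jt_near (hLJT : LJTStmt) {K i₀ : ℕ} {F : Pl n} (hF : F.totalDegree ≤ K)
    {y : Fin n → ℝ} {r S : ℝ} (hr : 0 < r) (hS : 0 ≤ S)
    (h : ∀ i, i₀ ≤ i → i ≤ K → CB (jt i F y) (S / r ^ i)) :
    ∀ m i : ℕ, K + 1 ≤ i + m → i₀ ≤ i → ∀ y' : Fin n → ℝ, (∀ l, |y' l - y l| ≤ r) →
      CB (jt i F y') ((1 + n * (K + 1)) ^ m * (S / r ^ i)) := by
  intro m
  induction m with
  | zero =>
    intro i hi _ y' _ k
    rw [jt_high hF (by omega) y', MvPolynomial.coeff_zero, abs_zero]
    positivity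
  | succ m ih =>
    intro i hi hi₀ y' hy' k
    by_cases hK : K < i
    · rw [jt_high hF hK y', MvPolynomial.coeff_zero, abs_zero]
      positivity
    · have h1 := jt_step hLJT hF (i := i) hy' (fun y'' hy'' =>
        ih (i + 1) (by omega) (by omega) y'' hy'') k
      have h2 := h i hi₀ (by omega) k
      have hb : (0 : ℝ) ≤ S / r ^ i := by positivity
      have hm : (1 : ℝ) ≤ (1 + n * (K + 1)) ^ m := one_le_pow₀ (by
        have : (0 : ℝ) ≤ n * (K + 1) := by positivity
        linarith)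
      have h3 : n * r * (K + 1) * ((1 + n * (K + 1)) ^ m * (S / r ^ (i + 1))) =
          n * (K + 1) * (1 + n * (K + 1)) ^ m * (S / r ^ i) := by
        rw [pow_succ]
        field_simp
      rw [h3] at h1
      calc |(jt i F y').coeff k| ≤ |(jt i F y').coeff k - (jt i F y).coeff k| +
            |(jt i F y).coeff k| := by
            have := abs_add_le ((jt i F y').coeff k - (jt i F y).coeff k) ((jt i F y).coeff k)
            rwa [sub_add_cancel] at this
        _ ≤ n * (K + 1) * (1 + n * (K + 1)) ^ m * (S / r ^ i) + S / r ^ i := add_le_add h1 h2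
        _ ≤ n * (K + 1) * (1 + n * (K + 1)) ^ m * (S / r ^ i) +
            (1 + n * (K + 1)) ^ m * (S / r ^ i) := by
            have := mul_le_mul_of_nonneg_right hm hb
            linarith
        _ = (1 + n * (K + 1)) ^ (m + 1) * (S / r ^ i) := by ring

/-- The difference of the jets of order `j` at two nearby points. -/
lemma jt_diff (hLJT : LJTStmt) {K j : ℕ} {F : Pl n} (hF : F.totalDegree ≤ K)
    {y y' : Fin n → ℝ} {r d S : ℝ} (hr : 0 < r) (hdr : d ≤ r) (hS : 0 ≤ S)
    (h : ∀ i, j + 1 ≤ i → i ≤ K → CB (jt i F y) (S / r ^ i))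
    (hd : ∀ l, |y' l - y l| ≤ d) :
    CB (jt j F y' - jt j F y) (n * d * (K + 1) * ((1 + n * (K + 1)) ^ (K + 1) *
      (S / r ^ (j + 1)))) := by
  intro k
  rw [MvPolynomial.coeff_sub]
  exact jt_step hLJT hF hd (fun y'' hy'' => jt_near hLJT hF hr hS h (K + 1) (j + 1) (by omega)
    le_rfl y'' (fun l => (hy'' l).trans hdr)) k

end Pool.BFL.Ven
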