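import Pool.Agent.H70.OC.Tel
import Pool.Agent.H19.BFL.Stmts3

/-!
# Entropy of integer vectors, with an exceptional event
-/

set_option autoImplicit false

namespace Pool.BFL.Ven

open Finset Real
open Pool.Agent.H49.Ent Pool.Agent.H32.Dense Pool.STK

variable {Ω T ι : Type} [Fintype Ω] [Fintype ι]

lemma Pr_le_Pb {p : Ω → ℝ} (hp : ∀ ω, 0 ≤ p ω) (E : Set Ω) (A : Ω → Prop)
    (h : ∀ ω, 0 < p ω → ω ∈ E → A ω) : Pool.KAF.Pr p E ≤ Pb p A := by
  classical
  rw [Pool.KAF.Pr_eq]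
  unfold Pb
  refine Finset.sum_le_sum fun ω _ => ?_
  rcases (hp ω).eq_or_lt with h0 | h0
  · simp [← h0]
  · by_cases h1 : ω ∈ E
    · rw [if_pos h1, if_pos (h ω h0 h1)]
    · rw [if_neg h1]
      split_ifs
      · exact h0.le
      · exact le_rfl

lemma card_Icc_vec [DecidableEq ι] (c : ι → ℤ) (L : ℕ) :
    ((Fintype.piFinset fun i => Finset.Icc (c i - L) (c i + L)).card : ℝ) =
      (2 * L + 1 : ℝ) ^ Fintype.card ι := by
  classical
  rw [Fintype.card_piFinset]
  push_cast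
  have h : ∀ i ∈ (univ : Finset ι), ((Finset.Icc (c i - (L : ℤ)) (c i + L)).card : ℝ) =
      2 * L + 1 := by
    intro i _
    rw [Int.card_Icc]
    have h1 : (c i + L + 1 - (c i - L)).toNat = 2 * L + 1 := by omega
    rw [h1]
    push_cast
    ring
  rw [Finset.prod_congr rfl h, Finset.prod_const, Finset.card_univ]

lemma h_int_vec {p : Ω → ℝ} (hp : IsLaw p) (X : Ω → ι → ℤ) (L : ℕ)
    (hL : ∀ ω, 0 < p ω → ∀ i, |X ω i| ≤ L) :
    H p X ≤ Fintype.card ι * Real.log (2 * L + 1) := by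
  classical
  have h := H_le_log_card hp.nonneg hp.sum_one X
    (Fintype.piFinset fun _ : ι => Finset.Icc ((0 : ℤ) - L) (0 + L)) (by
      intro ω hω
      rw [Fintype.mem_piFinset]
      intro i
      have := abs_le.mp (hL ω hω i)
      rw [Finset.mem_Icc]
      constructor <;> linarith [this.1, this.2])
  rw [card_Icc_vec (fun _ : ι => (0 : ℤ)) L, Real.log_pow] at h
  exact h

lemma ch_int_vec {p : Ω → ℝ} (hp : IsLaw p) (X : Ω → ι → ℤ) (W : Ω → T) (Gd : Ω → Prop)
    (R L : ℕ) (η : ℝ) (hL : ∀ ω, 0 < p ω → ∀ i, |X ω i| ≤ L)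
    (hR : ∀ ω ω', 0 < p ω → 0 < p ω' → Gd ω → Gd ω' → W ω = W ω' → ∀ i, |X ω i - X ω' i| ≤ R)
    (hη : Pb p (fun ω => ¬ Gd ω) ≤ η) :
    CH p X W ≤ Real.log 2 + Fintype.card ι * Real.log (2 * R + 1) +
      η * (Fintype.card ι * Real.log (2 * L + 1)) := by
  classical
  set N : T → Finset (ι → ℤ) := fun t =>
    if h : ∃ ω, 0 < p ω ∧ Gd ω ∧ W ω = t then
      Fintype.piFinset fun i => Finset.Icc (X h.choose i - R) (X h.choose i + R) else ∅ with hN
  set F : T → Finset (ι → ℤ) := fun _ =>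
    Fintype.piFinset fun _ : ι => Finset.Icc ((0 : ℤ) - L) (0 + L) with hF
  have hκ : (1 : ℝ) ≤ (2 * R + 1 : ℝ) ^ Fintype.card ι := one_le_pow₀ (by
    have : (0 : ℝ) ≤ 2 * R := by positivity
    linarith)
  have hLL : (1 : ℝ) ≤ (2 * L + 1 : ℝ) ^ Fintype.card ι := one_le_pow₀ (by
    have : (0 : ℝ) ≤ 2 * L := by positivity
    linarith)
  have h := Pool.OCT.ch_exc hp X W N F hκ hLL (by
      intro t
      simp only [hN]
      split_ifs with h1
      · rw [card_Icc_vec (fun i => X h1.choose i) R]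
      · rw [Finset.card_empty, Nat.cast_zero]
        positivity) (by
      intro t
      simp only [hF]
      rw [card_Icc_vec (fun _ : ι => (0 : ℤ)) L]) (by
      intro ω hω
      simp only [hF]
      rw [Fintype.mem_piFinset]
      intro i
      have := abs_le.mp (hL ω hω i)
      rw [Finset.mem_Icc]
      constructor <;> linarith [this.1, this.2])
  rw [Real.log_pow, Real.log_pow] at h
  have hpr : Pool.KAF.Pr p {ω | X ω ∉ N (W ω)} ≤ η := by
    refine (Pr_le_Pb hp.nonneg _ _ ?_).trans hη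
    intro ω hω hmem hg
    apply hmem
    have hex : ∃ ω', 0 < p ω' ∧ Gd ω' ∧ W ω' = W ω := ⟨ω, hω, hg, rfl⟩
    simp only [hN]
    rw [dif_pos hex, Fintype.mem_piFinset]
    intro i
    have h1 := abs_le.mp (hR ω hex.choose hω hex.choose_spec.1 hg hex.choose_spec.2.1
      hex.choose_spec.2.2.symm i)
    rw [Finset.mem_Icc]
    constructor <;> linarith [h1.1, h1.2]
  have hl : 0 ≤ (Fintype.card ι : ℝ) * Real.log (2 * L + 1) := by
    have : 0 ≤ Real.log (2 * L + 1 : ℝ) := Real.log_nonneg (by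
      have : (0 : ℝ) ≤ 2 * L := by positivity
      linarith)
    positivity
  have := mul_le_mul_of_nonneg_right hpr hl
  linarith

end Pool.BFL.Ven
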