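import Pool.Agent.H58.BFL.JNear
import Pool.Agent.H58.BFL.Vec

/-!
# Row VEN: deterministic part
-/

set_option autoImplicit false

namespace Pool.BFL.Ven

open Finset Real
open Pool.Agent.H49.Ent Pool.Agent.H32.Dense Pool.STK

lemma Pb_mono {Ω : Type} [Fintype Ω] {q : Ω → ℝ} (hq : ∀ ω, 0 ≤ q ω) {A B : Ω → Prop}
    (h : ∀ ω, 0 < q ω → A ω → B ω) : Pb q A ≤ Pb q B := by
  classical
  unfold Pb
  refine Finset.sum_le_sum fun ω _ => ?_
  rcases (hq ω).eq_or_lt with h0 | h0
  · simp [← h0]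
  · by_cases h1 : A ω
    · rw [if_pos h1, if_pos (h ω h0 h1)]
    · rw [if_neg h1]
      split_ifs
      · exact h0.le
      · exact le_rfl

lemma Pb_or_le {Ω : Type} [Fintype Ω] {q : Ω → ℝ} (hq : ∀ ω, 0 ≤ q ω) {A B : Ω → Prop} :
    Pb q (fun ω => A ω ∨ B ω) ≤ Pb q A + Pb q B := by
  classical
  unfold Pb
  rw [← Finset.sum_add_distrib]
  refine Finset.sum_le_sum fun ω _ => ?_
  have := hq ω
  by_cases h1 : A ω <;> by_cases h2 : B ω <;> simp [h1, h2, this]

lemma Ok_mono {n : ℕ} {D : Dat n} {K J r w₀ z M : ℕ} {κ κ' : ℝ} {q : D.Ω → ℝ}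
    (h : D.Ok K J r w₀ z M κ q) (hκ : κ ≤ κ') : D.Ok K J r w₀ z M κ' q := by
  have hz : κ * z ≤ κ' * z := mul_le_mul_of_nonneg_right hκ (Nat.cast_nonneg z)
  have he : Real.exp (κ * z) ≤ Real.exp (κ' * z) := Real.exp_le_exp.mpr hz
  have he' : Real.exp (-(κ' * z)) ≤ Real.exp (-(κ * z)) := Real.exp_le_exp.mpr (by linarith only [hz])
  have hd : ∀ a : ℕ, Real.exp (κ * z) / 2 ^ a ≤ Real.exp (κ' * z) / 2 ^ a := fun a => by
    gcongr
  exact {
    isLaw := h.isLaw
    r_le := h.r_le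
    top := h.top
    T_lt := h.T_lt
    E_le := h.E_le
    A_i₀ := h.A_i₀
    E_i₀ := h.E_i₀
    time := by linarith [h.time]
    pt_T := h.pt_T
    pt_Y := h.pt_Y
    c_pt := h.c_pt
    c_wn := h.c_wn
    c_c := h.c_c
    c_T := h.c_T
    y₀_near := fun k hk ω hω i => (h.y₀_near k hk ω hω i).trans (hd _)
    F_deg := h.F_deg
    F_hgt := fun k hk ω hω => (h.F_hgt k hk ω hω).trans (hd _)
    F_grad := fun k hk ω hω b hb i => (h.F_grad k hk ω hω b hb i).trans he
    g_mono := h.g_mono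
    g_ge := fun k hk => (h.g_ge k hk).trans (by linarith only [hz])
    nc := by
      obtain ⟨e, h0, h1, h2⟩ := h.nc
      refine ⟨e, h0, h1.trans hκ, fun ω hω u hu => ?_⟩
      refine (Pb_mono h.isLaw.nonneg ?_).trans (h2 ω hω u hu)
      intro ω' _ hh
      exact ⟨hh.1, hh.2.trans he'⟩ }

lemma c_det {n : ℕ} {D : Dat n} {K J r w₀ z M : ℕ} {κ : ℝ} {q : D.Ω → ℝ}
    (h : D.Ok K J r w₀ z M κ q) (k : ℕ) : ∀ l, k + l ≤ M → Det q (D.c (k + l)) (D.c k) := by
  intro l
  induction l with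
  | zero => intro _ ω ω' _ _ e; exact e
  | succ l ih =>
    intro hl ω ω' a b e
    exact ih (by omega) ω ω' a b (h.c_c (k + l) (by omega) ω ω' a b e)

lemma two_pow_le (a b : ℕ) {t : ℝ} (ht : 0 ≤ t) (h : (a : ℝ) ≤ b + t) :
    (2 : ℝ) ^ a ≤ Real.exp t * 2 ^ b := by
  have h2 : (2 : ℝ) = Real.exp (Real.log 2) := (Real.exp_log (by norm_num)).symm
  have hl : Real.log 2 ≤ 1 := by linarith only [Real.log_two_lt_d9]
  have hl0 : 0 < Real.log 2 := Real.log_pos (by norm_num)
  have e1 : (2 : ℝ) ^ a = Real.exp (a * Real.log 2) := by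
    rw [Real.exp_nat_mul, ← h2]
  have e2 : (2 : ℝ) ^ b = Real.exp (b * Real.log 2) := by
    rw [Real.exp_nat_mul, ← h2]
  rw [e1, e2, ← Real.exp_add]
  apply Real.exp_le_exp.mpr
  nlinarith only [ht, hl, h, hl0]

lemma CB_mono {n : ℕ} {P : Pl n} {r s : ℝ} (h : CB P r) (hrs : r ≤ s) : CB P s :=
  fun k => (h k).trans hrs

/-- The difference of two directional derivatives. -/
lemma dE_diff {n K : ℕ} {P P' : Pl n} {E E' : Fin n → ℝ} {p p' e : ℝ}
    (hP : P.totalDegree ≤ K) (hP' : P'.totalDegree ≤ K) (h1 : CB P p) (h2 : CB (P - P') p')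
    (hE : ∀ i, |E i - E' i| ≤ e) (hE' : ∀ i, |E' i| ≤ 1) (m : Fin n →₀ ℕ) :
    |(dE E P).coeff m - (dE E' P').coeff m| ≤ n * e * (K + 1) * p + n * (K + 1) * p' := by
  have e1 : (dE E P).coeff m - (dE E' P').coeff m =
      (dE (fun i => E i - E' i) P).coeff m + (dE E' (P - P')).coeff m := by
    have : dE E P - dE E' P' = dE (fun i => E i - E' i) P + dE E' (P - P') := by
      rw [dE_sub]
      unfold dE
      have : ∑ i, MvPolynomial.C (E i - E' i) * MvPolynomial.pderiv i P =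
          ∑ i, MvPolynomial.C (E i) * MvPolynomial.pderiv i P -
            ∑ i, MvPolynomial.C (E' i) * MvPolynomial.pderiv i P := by
        rw [← Finset.sum_sub_distrib]
        refine Finset.sum_congr rfl fun i _ => ?_
        rw [MvPolynomial.C_sub]
        ring
      rw [this]
      ring
    rw [← MvPolynomial.coeff_sub, this, MvPolynomial.coeff_add]
  rw [e1]
  refine (abs_add_le _ _).trans (add_le_add ?_ ?_)
  · exact CB_dD hP h1 hE m
  · have hd : (P - P').totalDegree ≤ K :=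
      (MvPolynomial.totalDegree_sub _ _).trans (max_le hP hP')
    have := CB_dD hd h2 hE' m
    rw [mul_one] at this
    exact this

/-- The tensors of the level `k + v` are determined up to the precision of `V`. -/
lemma det_close (hLJT : LJTStmt) {n K j J r w₀ z M k v U B : ℕ} {C₁ CV CJ κ : ℝ} {D : Dat n}
    {q : D.Ω → ℝ} {Q Q' : D.Λ × ℕ → Pl n} (hj : 1 ≤ j) (hjK : j ≤ K) (hC₁ : 1 ≤ C₁)
    (hCV : 1 ≤ CV) (hCJ : 1 ≤ CJ)
    (hκ : κ ≤ 1 / 4) (hz : 2 ≤ z)
    (hCx : 3 + n * (K + 1) + 2 * (n * (K + 1)) ^ 2 * (1 + n * (K + 1) : ℝ) ^ (K + 1) ≤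
      Real.exp z)
    (hU : 1 ≤ U) (hvB : v + U = B) (hOk : D.Ok K J r w₀ z M κ q) (hM : k + v + B ≤ M)
    (hH : D.Hom z B k j C₁) {ω ω' : D.Ω} (hω : 0 < q ω) (hω' : 0 < q ω')
    (g1 : D.JGd K J w₀ z B k j CJ Q ω) 
    (g3 : CB (dE (D.E (D.ln ω)) (jt j (Q' (D.wn J (w₀ + (k + v) * z) ω) -
        Q (D.wn J (w₀ + k * z) ω)) (D.Y J ω)))
        (Real.exp (CV * z) * 2 ^ ((j - 1) * (w₀ + (k + B) * z) + (w₀ + (k + v) * z)) /
          2 ^ D.g (k + B)))
    (g3' : CB (dE (D.E (D.ln ω')) (jt j (Q' (D.wn J (w₀ + (k + v) * z) ω') -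
        Q (D.wn J (w₀ + k * z) ω')) (D.Y J ω')))
        (Real.exp (CV * z) * 2 ^ ((j - 1) * (w₀ + (k + B) * z) + (w₀ + (k + v) * z)) /
          2 ^ D.g (k + B)))
    (hE : ∀ i, |D.E (D.ln ω) i - D.E (D.ln ω') i| ≤ 1 / 2 ^ (B * z))
    (htb : ∀ m, |(D.tb J w₀ z j k Q ω).coeff m - (D.tb J w₀ z j k Q ω').coeff m| ≤
      2 ^ (j * (w₀ + k * z)) / 2 ^ (D.g k + U * z))
    (hc : D.c (k + v + U) ω = D.c (k + v + U) ω') (m : Fin n →₀ ℕ) :
    |(D.tb J w₀ z j (k + v) Q' ω).coeff m - (D.tb J w₀ z j (k + v) Q' ω').coeff m| ≤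
      Real.exp ((CV + CJ + 2 * C₁ + 2) * z) *
        (2 ^ (j * (w₀ + (k + v) * z)) / 2 ^ (D.g (k + v) + U * z)) := by
  have hc1 : D.c (k + v) ω = D.c (k + v) ω' :=
    c_det hOk (k + v) U (by omega) ω ω' hω hω' hc
  have hc0 : D.c k ω = D.c k ω' := c_det hOk k v (by omega) ω ω' hω hω' hc1
  have hz1 : (1 : ℝ) ≤ z := by exact_mod_cast (by omega : 1 ≤ z)
  have hz0 : (0 : ℝ) < z := by linarith only [hz1]
  -- the powers
  obtain ⟨X, hX⟩ : ∃ X : ℝ, X = 2 ^ (w₀ + k * z) := ⟨_, rfl⟩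
  obtain ⟨Z, hZ⟩ : ∃ Z : ℝ, Z = 2 ^ (v * z) := ⟨_, rfl⟩
  obtain ⟨u, hu⟩ : ∃ u : ℝ, u = 2 ^ (U * z) := ⟨_, rfl⟩
  obtain ⟨G, hG⟩ : ∃ G : ℝ, G = 2 ^ (D.g k) := ⟨_, rfl⟩
  obtain ⟨G', hG'⟩ : ∃ G' : ℝ, G' = 2 ^ (D.g (k + v)) := ⟨_, rfl⟩
  obtain ⟨G'', hG''⟩ : ∃ G'' : ℝ, G'' = 2 ^ (D.g (k + B)) := ⟨_, rfl⟩
  have hX0 : 0 < X := by rw [hX]; positivity
  have hZ0 : 0 < Z := by rw [hZ]; positivity
  have hZ1 : 1 ≤ Z := by rw [hZ]; exact one_le_pow₀ (by norm_num)
  have hu0 : 0 < u := by rw [hu]; positivity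
  have hG0 : 0 < G := by rw [hG]; positivity
  have hG'0 : 0 < G' := by rw [hG']; positivity
  have hG''0 : 0 < G'' := by rw [hG'']; positivity
  have eXZ : (2 : ℝ) ^ (w₀ + (k + v) * z) = X * Z := by
    rw [hX, hZ, ← pow_add]
    congr 1
    ring
  have eXZu : (2 : ℝ) ^ (w₀ + (k + B) * z) = X * Z * u := by
    rw [hX, hZ, hu, ← pow_add, ← pow_add, ← hvB]
    congr 1
    ring
  have eXZu' : (2 : ℝ) ^ (w₀ + (k + v + U) * z) = X * Z * u := by
    rw [hX, hZ, hu, ← pow_add, ← pow_add]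
    congr 1
    ring
  exact by
   have eB : (2 : ℝ) ^ (B * z) = Z * u := by
     rw [hZ, hu, ← pow_add, ← hvB]
     congr 1
     ring
   -- homogeneity
   have hv1 := abs_le.mp (hH v (by omega))
   have hv2 := abs_le.mp (hH B le_rfl)
   have hBr : (B : ℝ) = v + U := by rw [← hvB]; push_cast; ring
   have hC₁z : 0 ≤ C₁ * z := by positivity
   have hGG' : G' ≤ Real.exp (C₁ * z) * (G * Z ^ j) := by
     have h := two_pow_le (D.g (k + v)) (D.g k + j * (v * z)) hC₁z (by
       push_cast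
       linarith only [hv1, hv1.2])
     rw [pow_add, ← hG, ← hG'] at h
     rw [hZ, ← pow_mul, mul_comm (v * z) j]
     exact h
   have hGG'' : G' * u ^ j ≤ Real.exp (2 * C₁ * z) * G'' := by
     have h := two_pow_le (D.g (k + v) + j * (U * z)) (D.g (k + B))
       (t := 2 * C₁ * z) (by positivity) (by
       push_cast
       have h1 := hv1.2
       have h2 := hv2.1
       rw [hBr] at h2
       linarith only [hv1, h2])
     rw [pow_add, ← hG', ← hG''] at h
     rw [hu, ← pow_mul, mul_comm (U * z) j]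
     exact h
   -- the polynomial
   obtain ⟨Φ, hΦ⟩ : ∃ Φ : Pl n, Φ = D.F (k + v) (D.c (k + v) ω) - D.F k (D.c k ω) := ⟨_, rfl⟩
   have hΦdeg : Φ.totalDegree ≤ K := by
     rw [hΦ]
     exact (MvPolynomial.totalDegree_sub _ _).trans (max_le (hOk.F_deg _ _) (hOk.F_deg _ _))
   exact by
    have etb : ∀ ω₁ : D.Ω, D.F (k + v) (D.c (k + v) ω₁) - D.F k (D.c k ω₁) = Φ →
        D.tb J w₀ z j (k + v) Q' ω₁ = dE (D.E (D.ln ω₁)) (jt j (Q' (D.wn J (w₀ + (k + v) * z) ω₁) -
          Q (D.wn J (w₀ + k * z) ω₁)) (D.Y J ω₁)) + D.tb J w₀ z j k Q ω₁ -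
          dE (D.E (D.ln ω₁)) (jt j Φ (D.Y J ω₁)) := by
      intro ω₁ h
      rw [← h]
      unfold Dat.tb
      simp only [Tra.jt_sub, dE_sub]
      ring
    have e1 := etb ω hΦ.symm
    have e2 := etb ω' (by rw [← hc1, ← hc0]; exact hΦ.symm)
    -- the jets of the polynomial
    have b1 : CB (jt j Φ (D.Y J ω)) (Real.exp (CJ * z) * X ^ j / G) := by
      have h := g1.b1 v (by omega) j hjK
      rw [← hΦ, Nat.sub_self, zero_mul, add_zero, ← hG] at h
      rw [hX, ← pow_mul, mul_comm (w₀ + k * z) j]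
      exact h
    obtain ⟨S, hS⟩ : ∃ S : ℝ, S = Real.exp (CJ * z) * X ^ j / G / (X * Z) ^ j := ⟨_, rfl⟩
    have hS0 : 0 ≤ S := by rw [hS]; positivity
    have b2 : ∀ i, j + 1 ≤ i → i ≤ K → CB (jt i Φ (D.Y J ω)) (S / (1 / (X * Z)) ^ i) := by
      intro i hi hiK
      have h := g1.b1 v (by omega) i hiK
      rw [← hΦ, ← hG] at h
      refine CB_mono h (le_of_eq ?_)
      obtain ⟨l, rfl⟩ : ∃ l, i = j + l := ⟨i - j, by omega⟩
      have hl : j + l - j = l := by omega
      have e3 : (2 : ℝ) ^ ((j + l) * (w₀ + k * z) + (j + l - j) * (v * z)) = X ^ (j + l) * Z ^ l := by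
        rw [hl, hX, hZ, ← pow_mul, ← pow_mul, ← pow_add]
        congr 1
        ring
      rw [e3, hS, pow_add, pow_add, one_div, inv_pow, inv_pow]
      field_simp
      ring
    exact by
     obtain ⟨δ, hδ⟩ : ∃ δ : ℝ, δ = 2 * Real.exp (κ * z) / (X * Z * u) := ⟨_, rfl⟩
     have hδY : ∀ i, |D.Y J ω' i - D.Y J ω i| ≤ δ := by
       intro i
       have h1 := hOk.y₀_near (k + v + U) (by omega) ω hω i
       have h2 := hOk.y₀_near (k + v + U) (by omega) ω' hω' i
       rw [← hc] at h2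
       rw [eXZu'] at h1 h2
       have h3 := abs_le.mp h1
       have h4 := abs_le.mp h2
       have h5 : δ = Real.exp (κ * z) / (X * Z * u) + Real.exp (κ * z) / (X * Z * u) := by
         rw [hδ]; ring
       rw [h5, abs_le]
       constructor <;> linarith only [h3, h4, h3.1, h3.2, h4.1, h4.2]
     have hδr : δ ≤ 1 / (X * Z) := by
       have h1 : 2 * Real.exp (κ * z) ≤ u := by
         have h2 : (2 : ℝ) ^ z ≤ u := by
           rw [hu]
           exact pow_le_pow_right₀ (by norm_num) (Nat.le_mul_of_pos_left z (by omega))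
         refine le_trans ?_ h2
         have h3 : (2 : ℝ) = Real.exp (Real.log 2) := (Real.exp_log (by norm_num)).symm
         have h4 : (2 : ℝ) ^ z = Real.exp (z * Real.log 2) := by
           rw [Real.exp_nat_mul, ← h3]
         have h5 : 2 * Real.exp (κ * z) = Real.exp (Real.log 2 + κ * z) := by
           rw [Real.exp_add, ← h3]
         rw [h4, h5]
         apply Real.exp_le_exp.mpr
         have h6 : κ * z ≤ 1 / 4 * z := mul_le_mul_of_nonneg_right hκ hz0.le
         have h7 := Real.log_two_gt_d9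
         have h8 : (2 : ℝ) ≤ z := by exact_mod_cast hz
         have h9 : ((z : ℝ) - 1) * 0.6931471803 ≤ (z - 1) * Real.log 2 :=
           mul_le_mul_of_nonneg_left h7.le (by linarith only [h8])
         linarith only [h6, h8, h9]
       rw [hδ, div_le_div_iff₀ (by positivity) (by positivity)]
       calc 2 * Real.exp (κ * z) * (X * Z) ≤ u * (X * Z) :=
             mul_le_mul_of_nonneg_right h1 (by positivity)
         _ = 1 * (X * Z * u) := by ring
     exact by
      have b3 := jt_diff hLJT hΦdeg (r := 1 / (X * Z)) (by positivity) hδr hS0 b2 hδY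
      have hδ0 : 0 < δ := by rw [hδ]; positivity
      -- the numbers
      obtain ⟨N, hN⟩ : ∃ N : ℝ, N = n * (K + 1) := ⟨_, rfl⟩
      have hN0 : 0 ≤ N := by rw [hN]; positivity
      obtain ⟨Cn, hCn⟩ : ∃ Cn : ℝ, Cn = (1 + n * (K + 1)) ^ (K + 1) := ⟨_, rfl⟩
      have hCn0 : 0 ≤ Cn := by rw [hCn]; positivity
      have b4 : n * δ * (K + 1) * ((1 + n * (K + 1)) ^ (K + 1) * (S / (1 / (X * Z)) ^ (j + 1))) =
          2 * N * Cn * Real.exp ((κ + CJ) * z) * (X ^ j / (G * u)) := by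
        have h1 : Real.exp ((κ + CJ) * z) = Real.exp (κ * z) * Real.exp (CJ * z) := by
          rw [← Real.exp_add]; congr 1; ring
        rw [← hCn, hN, hS, hδ, h1, pow_succ, one_div, inv_pow]
        field_simp
      rw [b4] at b3
      have b3' : CB (jt j Φ (D.Y J ω) - jt j Φ (D.Y J ω'))
          (2 * N * Cn * Real.exp ((κ + CJ) * z) * (X ^ j / (G * u))) := by
        intro m'
        have := b3 m'
        rw [MvPolynomial.coeff_sub] at this ⊢
        rwa [abs_sub_comm]
      have b5 := dE_diff (jt_deg hΦdeg _) (jt_deg hΦdeg _) b1 b3' hE (hOk.E_le (D.ln ω')) m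
      -- the sum
      have a1 := g3 m
      have a2 := g3' m
      have a3 := htb m
      obtain ⟨Vs, hVs⟩ : ∃ Vs : ℝ, Vs = Real.exp (CV * z) *
          2 ^ ((j - 1) * (w₀ + (k + B) * z) + (w₀ + (k + v) * z)) / 2 ^ D.g (k + B) := ⟨_, rfl⟩
      rw [← hVs] at a1 a2
      have hT : 0 < X ^ j / (G * u) := by positivity
      obtain ⟨S', hS'⟩ : ∃ S' : ℝ, S' = (X * Z) ^ j / (G' * u) := ⟨_, rfl⟩
      exact by
       have hS'0 : 0 < S' := by rw [hS']; positivity
       have hTS : X ^ j / (G * u) ≤ Real.exp (C₁ * z) * S' := by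
         rw [hS', mul_pow, ← mul_div_assoc, div_le_div_iff₀ (by positivity) (by positivity)]
         calc X ^ j * (G' * u) = X ^ j * u * G' := by ring
           _ ≤ X ^ j * u * (Real.exp (C₁ * z) * (G * Z ^ j)) :=
               mul_le_mul_of_nonneg_left hGG' (by positivity)
           _ = Real.exp (C₁ * z) * (X ^ j * Z ^ j) * (G * u) := by ring
       have hVS : Vs ≤ Real.exp ((CV + 2 * C₁) * z) * S' := by
         obtain ⟨j', rfl⟩ : ∃ j', j = j' + 1 := ⟨j - 1, by omega⟩
         have e3 : Vs = Real.exp (CV * z) * ((X * Z * u) ^ j' * (X * Z)) / G'' := by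
           rw [hVs, Nat.add_sub_cancel, ← eXZu, ← eXZ, hG'', ← pow_mul, ← pow_add]
           congr 3
           ring
         have e4 : Real.exp ((CV + 2 * C₁) * z) = Real.exp (CV * z) * Real.exp (2 * C₁ * z) := by
           rw [← Real.exp_add]; congr 1; ring
         rw [e3, e4, hS', ← mul_div_assoc, div_le_div_iff₀ (by positivity) (by positivity)]
         calc Real.exp (CV * z) * ((X * Z * u) ^ j' * (X * Z)) * (G' * u) =
               Real.exp (CV * z) * (X * Z) ^ (j' + 1) * (G' * u ^ (j' + 1)) := by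
               rw [mul_pow (X * Z) u, pow_succ, pow_succ]; ring
           _ ≤ Real.exp (CV * z) * (X * Z) ^ (j' + 1) * (Real.exp (2 * C₁ * z) * G'') :=
               mul_le_mul_of_nonneg_left hGG'' (by positivity)
           _ = _ := by ring
       have a3' : |(D.tb J w₀ z j k Q ω).coeff m - (D.tb J w₀ z j k Q ω').coeff m| ≤
           X ^ j / (G * u) := by
         refine a3.trans (le_of_eq ?_)
         rw [pow_add, ← hG, ← hu, hX, ← pow_mul, mul_comm (w₀ + k * z) j]
       have b6 : n * (1 / 2 ^ (B * z)) * (K + 1) * (Real.exp (CJ * z) * X ^ j / G) ≤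
           N * Real.exp (CJ * z) * (X ^ j / (G * u)) := by
         rw [eB, hN]
         have h1 : 1 / (Z * u) ≤ 1 / u := by
           exact one_div_le_one_div_of_le hu0 (le_mul_of_one_le_left hu0.le hZ1)
         calc n * (1 / (Z * u)) * (K + 1) * (Real.exp (CJ * z) * X ^ j / G) =
               n * (K + 1) * (Real.exp (CJ * z) * X ^ j / G) * (1 / (Z * u)) := by ring
           _ ≤ n * (K + 1) * (Real.exp (CJ * z) * X ^ j / G) * (1 / u) :=
               mul_le_mul_of_nonneg_left h1 (by positivity)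
           _ = _ := by field_simp
       exact by
        have tot : |(D.tb J w₀ z j (k + v) Q' ω).coeff m - (D.tb J w₀ z j (k + v) Q' ω').coeff m| ≤
            Vs + Vs + X ^ j / (G * u) + (N * Real.exp (CJ * z) * (X ^ j / (G * u)) +
              N * (2 * N * Cn * Real.exp ((κ + CJ) * z) * (X ^ j / (G * u)))) := by
          rw [e1, e2, MvPolynomial.coeff_sub, MvPolynomial.coeff_sub, MvPolynomial.coeff_add,
            MvPolynomial.coeff_add]
          have c1 := abs_le.mp a1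
          have c2 := abs_le.mp a2
          have c3 := abs_le.mp a3'
          have c4 := abs_le.mp b5
          have c5 : (n : ℝ) * (K + 1) * (2 * N * Cn * Real.exp ((κ + CJ) * z) * (X ^ j / (G * u))) =
              N * (2 * N * Cn * Real.exp ((κ + CJ) * z) * (X ^ j / (G * u))) := by rw [hN]
          rw [c5] at c4
          rw [abs_le]
          constructor <;> linarith only [b6, c1, c2, c3, c4, c1.1, c1.2, c2.1, c2.2, c3.1, c3.2, c4.1, c4.2]
        refine tot.trans ?_
        have e5 : (2 : ℝ) ^ (j * (w₀ + (k + v) * z)) / 2 ^ (D.g (k + v) + U * z) = S' := by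
          rw [hS', pow_add, ← hG', ← hu, ← eXZ, ← pow_mul, mul_comm (w₀ + (k + v) * z) j]
        rw [e5]
        -- everything over `exp (E z) S'`
        obtain ⟨A, hA⟩ : ∃ A : ℝ, A = Real.exp ((CV + CJ + 2 * C₁ + 1) * z) := ⟨_, rfl⟩
        have hA0 : 0 < A := by rw [hA]; positivity
        have l1 : Vs ≤ A * S' := hVS.trans (mul_le_mul_of_nonneg_right (by
          rw [hA]
          exact Real.exp_le_exp.mpr (mul_le_mul_of_nonneg_right (by linarith only [hCJ]) hz0.le)) hS'0.le)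
        have l2 : X ^ j / (G * u) ≤ A * S' := hTS.trans (mul_le_mul_of_nonneg_right (by
          rw [hA]
          exact Real.exp_le_exp.mpr (mul_le_mul_of_nonneg_right (by linarith only [hC₁, hCV, hCJ]) hz0.le)) hS'0.le)
        have l3 : Real.exp (CJ * z) * (X ^ j / (G * u)) ≤ A * S' := by
          calc Real.exp (CJ * z) * (X ^ j / (G * u)) ≤ Real.exp (CJ * z) * (Real.exp (C₁ * z) * S') :=
                mul_le_mul_of_nonneg_left hTS (by positivity)
            _ = Real.exp ((CJ + C₁) * z) * S' := by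
                rw [← mul_assoc, ← Real.exp_add]; congr 2; ring
            _ ≤ A * S' := mul_le_mul_of_nonneg_right (by
                rw [hA]
                exact Real.exp_le_exp.mpr (mul_le_mul_of_nonneg_right (by linarith only [hC₁, hCV]) hz0.le)) hS'0.le
        exact by
         have l4 : Real.exp ((κ + CJ) * z) * (X ^ j / (G * u)) ≤ A * S' := by
           calc Real.exp ((κ + CJ) * z) * (X ^ j / (G * u)) ≤
                 Real.exp ((κ + CJ) * z) * (Real.exp (C₁ * z) * S') :=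
                 mul_le_mul_of_nonneg_left hTS (by positivity)
             _ = Real.exp ((κ + CJ + C₁) * z) * S' := by
                 rw [← mul_assoc, ← Real.exp_add]; congr 2; ring
             _ ≤ A * S' := mul_le_mul_of_nonneg_right (by
                 rw [hA]
                 exact Real.exp_le_exp.mpr (mul_le_mul_of_nonneg_right (by linarith only [hC₁, hCV, hκ]) hz0.le)) hS'0.le
         have l5 : N * Real.exp (CJ * z) * (X ^ j / (G * u)) ≤ N * (A * S') := by
           calc N * Real.exp (CJ * z) * (X ^ j / (G * u)) =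
                 N * (Real.exp (CJ * z) * (X ^ j / (G * u))) := by ring
             _ ≤ _ := mul_le_mul_of_nonneg_left l3 hN0
         have l6 : N * (2 * N * Cn * Real.exp ((κ + CJ) * z) * (X ^ j / (G * u))) ≤
             2 * N ^ 2 * Cn * (A * S') := by
           calc N * (2 * N * Cn * Real.exp ((κ + CJ) * z) * (X ^ j / (G * u))) =
                 2 * N ^ 2 * Cn * (Real.exp ((κ + CJ) * z) * (X ^ j / (G * u))) := by ring
             _ ≤ _ := mul_le_mul_of_nonneg_left l4 (by positivity)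
         have l7 : Real.exp ((CV + CJ + 2 * C₁ + 2) * z) = Real.exp z * A := by
           rw [hA, ← Real.exp_add]; congr 1; ring
         rw [l7]
         have hCx' : 3 + N + 2 * N ^ 2 * Cn ≤ Real.exp z := by rw [hN, hCn]; exact hCx
         have l8 := mul_le_mul_of_nonneg_right hCx' (mul_pos hA0 hS'0).le
         calc Vs + Vs + X ^ j / (G * u) + (N * Real.exp (CJ * z) * (X ^ j / (G * u)) +
               N * (2 * N * Cn * Real.exp ((κ + CJ) * z) * (X ^ j / (G * u)))) ≤
               (3 + N + 2 * N ^ 2 * Cn) * (A * S') := by linarith only [l1, l2, l5, l6]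
           _ ≤ Real.exp z * (A * S') := l8
           _ = Real.exp z * A * S' := by ring

end Pool.BFL.Ven
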